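import Pool.Agent.H32.NS.Words

set_option autoImplicit false

namespace Pool.Agent.H32.NS

theorem psum_zip (u y : List ℕ) (h : u.length = y.length) : psum (u.zip y) = u.sum + y.sum := by
  induction u generalizing y with
  | nil =>
    cases y with
    | nil => simp [psum]
    | cons b y => simp at h
  | cons a u ih =>
    cases y with
    | nil => simp at h
    | cons b y =>
      have := ih y (by simpa using h)
      simp only [psum, List.zip_cons_cons, List.map_cons, List.sum_cons] at this ⊢
      omega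

/-- General counting lemma for a dominated pair of blocks. -/
theorem dominated_count (G e : ℕ) (X : Finset (List ℕ)) (U Y w : List ℕ → List ℕ)
    (hU : ∀ c ∈ X, (U c).length = e) (hY : ∀ c ∈ X, (Y c).length = e)
    (hU2 : ∀ c ∈ X, ∀ x ∈ U c, x = 1 ∨ x = 2) (hY2 : ∀ c ∈ X, ∀ x ∈ Y c, x = 1 ∨ x = 2)
    (hw2 : ∀ c ∈ X, ∀ x ∈ w c, x = 1 ∨ x = 2)
    (hd : ∀ c ∈ X, ∀ i < e, (Y c).getD i 0 ≤ (U c).getD i 0)
    (hs : ∀ c ∈ X, (U c).sum + (Y c).sum + (w c).sum = G)
    (hinj : ∀ c ∈ X, ∀ c' ∈ X, U c = U c' → Y c = Y c' → w c = w c' → c = c') :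
    (X.card : ℝ) * ps ^ G ≤ th ^ e := by
  apply pair_blocks G e X (fun c => (U c).zip (Y c)) w
  · intro c hc
    have hlen : ((U c).zip (Y c)).length = e := by
      rw [List.length_zip, hU c hc, hY c hc, min_self]
    rw [← hlen]
    apply mem_PL
    intro s hs'
    rw [List.mem_iff_getElem] at hs'
    obtain ⟨i, hi, rfl⟩ := hs'
    rw [hlen] at hi
    have h1 : i < (U c).length := by rw [hU c hc]; exact hi
    have h2 : i < (Y c).length := by rw [hY c hc]; exact hi
    rw [List.getElem_zip]
    have h3 := hU2 c hc _ (List.getElem_mem h1)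
    have h4 := hY2 c hc _ (List.getElem_mem h2)
    have h5 := hd c hc i hi
    rw [List.getD_eq_getElem _ _ h1, List.getD_eq_getElem _ _ h2] at h5
    generalize (U c)[i] = a at h3 h5
    generalize (Y c)[i] = b at h4 h5
    unfold P3
    rcases h3 with rfl | rfl <;> rcases h4 with rfl | rfl <;> simp at h5 ⊢
  · exact hw2
  · intro c hc
    rw [psum_zip _ _ ((hU c hc).trans (hY c hc).symm)]
    exact hs c hc
  · intro c hc c' hc' h
    simp only [Prod.mk.injEq] at h
    have h1 : (U c, Y c) = (U c', Y c') := by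
      rw [← List.unzip_zip ((hU c hc).trans (hY c hc).symm),
        ← List.unzip_zip ((hU c' hc').trans (hY c' hc').symm), h.1]
    exact hinj c hc c' hc' (congrArg Prod.fst h1) (congrArg Prod.snd h1) h.2

/-- The word is dominated by its own beginning on the last `e` letters. -/
def Dom1 (c : List ℕ) (e : ℕ) : Prop :=
  ∀ i < e, c.getD (c.length - e + i) 0 ≤ c.getD i 0

def Dom2 (c : List ℕ) (s : ℕ) : Prop := ∀ i < s, c.getD (s + i) 0 ≤ c.getD i 0

def BadW (E : ℕ) (c : List ℕ) : Prop := ∃ e, E ≤ e ∧ e < c.length ∧ Dom1 c e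

theorem getD_take' {l : List ℕ} {R i : ℕ} (h : i < R) : (l.take R).getD i 0 = l.getD i 0 := by
  simp [List.getD_eq_getElem?_getD, h]

theorem getD_drop' (l : List ℕ) (R i : ℕ) : (l.drop R).getD i 0 = l.getD (R + i) 0 := by
  simp [List.getD_eq_getElem?_getD, List.getElem?_drop]

open Classical in
theorem count_dom1 (G e : ℕ) :
    (((W12 G).filter (fun c => 2 * e ≤ c.length ∧ Dom1 c e)).card : ℝ) * ps ^ G ≤ th ^ e := by
  have hmem : ∀ c ∈ (W12 G).filter (fun c => 2 * e ≤ c.length ∧ Dom1 c e),
      (∀ x ∈ c, x = 1 ∨ x = 2) ∧ c.sum = G ∧ 2 * e ≤ c.length ∧ Dom1 c e := by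
    intro c hc
    rw [Finset.mem_filter, mem_W12] at hc
    exact ⟨hc.1.1, hc.1.2, hc.2.1, hc.2.2⟩
  apply dominated_count G e _ (fun c => c.take e) (fun c => c.drop (c.length - e))
    (fun c => (c.drop e).take (c.length - 2 * e))
  · intro c hc
    obtain ⟨h1, h2, h3, h4⟩ := hmem c hc
    rw [List.length_take]; omega
  · intro c hc
    obtain ⟨h1, h2, h3, h4⟩ := hmem c hc
    rw [List.length_drop]; omega
  · intro c hc x hx
    exact (hmem c hc).1 x (List.mem_of_mem_take hx)
  · intro c hc x hx
    exact (hmem c hc).1 x (List.mem_of_mem_drop hx)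
  · intro c hc x hx
    exact (hmem c hc).1 x (List.mem_of_mem_drop (List.mem_of_mem_take hx))
  · intro c hc i hi
    obtain ⟨h1, h2, h3, h4⟩ := hmem c hc
    rw [getD_take' hi, getD_drop']
    exact h4 i hi
  · intro c hc
    obtain ⟨h1, h2, h3, h4⟩ := hmem c hc
    have e1 := List.sum_take_add_sum_drop c e
    have e2 := List.sum_take_add_sum_drop (c.drop e) (c.length - 2 * e)
    rw [List.drop_drop] at e2
    have e3 : e + (c.length - 2 * e) = c.length - e := by omega
    rw [e3] at e2
    omega
  · intro c hc c' hc' hU hY hw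
    obtain ⟨h1, h2, h3, h4⟩ := hmem c hc
    obtain ⟨h1', h2', h3', h4'⟩ := hmem c' hc'
    have hlen : c.length = c'.length := by
      have := congrArg List.length hw
      simp only [List.length_take, List.length_drop] at this
      omega
    have key : ∀ c : List ℕ, 2 * e ≤ c.length →
        c = c.take e ++ ((c.drop e).take (c.length - 2 * e) ++ c.drop (c.length - e)) := by
      intro c hc
      have e3 : c.drop (c.length - e) = (c.drop e).drop (c.length - 2 * e) := by
        rw [List.drop_drop]; congr 1; omega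
      rw [e3, List.take_append_drop, List.take_append_drop]
    rw [key c h3, key c' h3', hU, hw, hY]

open Classical in
theorem count_dom2 (G s : ℕ) :
    (((W12 G).filter (fun c => 2 * s ≤ c.length ∧ Dom2 c s)).card : ℝ) * ps ^ G ≤ th ^ s := by
  have hmem : ∀ c ∈ (W12 G).filter (fun c => 2 * s ≤ c.length ∧ Dom2 c s),
      (∀ x ∈ c, x = 1 ∨ x = 2) ∧ c.sum = G ∧ 2 * s ≤ c.length ∧ Dom2 c s := by
    intro c hc
    rw [Finset.mem_filter, mem_W12] at hc
    exact ⟨hc.1.1, hc.1.2, hc.2.1, hc.2.2⟩
  apply dominated_count G s _ (fun c => c.take s) (fun c => (c.drop s).take s)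
    (fun c => (c.drop s).drop s)
  · intro c hc
    obtain ⟨h1, h2, h3, h4⟩ := hmem c hc
    rw [List.length_take]; omega
  · intro c hc
    obtain ⟨h1, h2, h3, h4⟩ := hmem c hc
    rw [List.length_take, List.length_drop]; omega
  · intro c hc x hx
    exact (hmem c hc).1 x (List.mem_of_mem_take hx)
  · intro c hc x hx
    exact (hmem c hc).1 x (List.mem_of_mem_drop (List.mem_of_mem_take hx))
  · intro c hc x hx
    exact (hmem c hc).1 x (List.mem_of_mem_drop (List.mem_of_mem_drop hx))
  · intro c hc i hi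
    obtain ⟨h1, h2, h3, h4⟩ := hmem c hc
    rw [getD_take' hi, getD_take' hi, getD_drop']
    exact h4 i hi
  · intro c hc
    obtain ⟨h1, h2, h3, h4⟩ := hmem c hc
    have e1 := List.sum_take_add_sum_drop c s
    have e2 := List.sum_take_add_sum_drop (c.drop s) s
    omega
  · intro c hc c' hc' hU hY hw
    have key : ∀ c : List ℕ,
        c = c.take s ++ ((c.drop s).take s ++ (c.drop s).drop s) := by
      intro c
      rw [List.take_append_drop, List.take_append_drop]
    rw [key c, key c', hU, hw, hY]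

/-- A bad word has one of the two simple dominations. -/
theorem bad_cases {E : ℕ} {c : List ℕ} (h : BadW E c) :
    (∃ e, E ≤ e ∧ 2 * e ≤ c.length ∧ Dom1 c e) ∨
    (∃ s, c.length ≤ 8 * s ∧ 2 * s ≤ c.length ∧ Dom2 c s) := by
  obtain ⟨e, h1, h2, h3⟩ := h
  by_cases he : 2 * e ≤ c.length
  · exact Or.inl ⟨e, h1, he, h3⟩
  · right
    set n := c.length with hn
    set s := n - e with hs
    have hs1 : 1 ≤ s := by omega
    have hbase : ∀ i, i + s < n → c.getD (i + s) 0 ≤ c.getD i 0 := by
      intro i hi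
      have := h3 i (by omega)
      rw [← hn] at this
      have e1 : n - e + i = i + s := by omega
      rwa [e1] at this
    have hmul : ∀ t i, i + t * s < n → c.getD (i + t * s) 0 ≤ c.getD i 0 := by
      intro t
      induction t with
      | zero => intro i _; simp
      | succ t ih =>
        intro i hi
        have e1 : i + (t + 1) * s = (i + t * s) + s := by ring
        rw [e1] at hi ⊢
        exact (hbase _ hi).trans (ih i (by omega))
    have hex : ∃ t, n ≤ 8 * (t * s) := ⟨n, by nlinarith⟩
    classical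
    set t := Nat.find hex with ht
    have ht1 : n ≤ 8 * (t * s) := Nat.find_spec hex
    have ht0 : t ≠ 0 := by
      intro h0
      rw [h0] at ht1
      omega
    obtain ⟨t', ht'⟩ : ∃ t', t = t' + 1 := ⟨t - 1, by omega⟩
    have ht2 : ¬ n ≤ 8 * (t' * s) := Nat.find_min hex (by omega)
    have e1 : t * s = t' * s + s := by rw [ht']; ring
    refine ⟨t * s, ht1, ?_, ?_⟩
    · by_cases h8 : n ≤ 8 * s
      · have ht'0 : t' = 0 := by
          by_contra hne
          apply ht2
          have : s ≤ t' * s := Nat.le_mul_of_pos_left s (by omega)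
          omega
        rw [ht'0] at e1
        omega
      · omega
    · intro i hi
      have h4 := hmul t i ?_
      · rwa [add_comm] at h4
      · by_cases h8 : n ≤ 8 * s
        · have ht'0 : t' = 0 := by
            by_contra hne
            apply ht2
            have : s ≤ t' * s := Nat.le_mul_of_pos_left s (by omega)
            omega
          rw [ht'0] at e1
          omega
        · omega

theorem geom_th (a b : ℕ) : ∑ l ∈ Finset.Ico a b, th ^ l ≤ 5 * th ^ a := by
  have h0 := th_pos
  have h1 := th_lt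
  rcases le_total a b with h | h
  · obtain ⟨n, rfl⟩ := Nat.exists_eq_add_of_le h
    have key : ∀ n, ∑ l ∈ Finset.Ico a (a + n), th ^ l + 5 * th ^ (a + n) ≤ 5 * th ^ a := by
      intro n
      induction n with
      | zero => simp
      | succ n ih =>
        rw [← add_assoc, Finset.sum_Ico_succ_top (by omega), pow_succ]
        have : 0 < th ^ (a + n) := by positivity
        nlinarith
    have := key n
    have h2 : 0 < th ^ (a + n) := by positivity
    linarith
  · rw [Finset.Ico_eq_empty (by omega), Finset.sum_empty]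
    positivity

open Classical in
/-- Bad words are rare. -/
theorem count_bad (G E : ℕ) :
    (((W12 G).filter (BadW E)).card : ℝ) * ps ^ G ≤ 5 * th ^ E + 5 * th ^ (G / 16) := by
  have h0 := ps_pos
  have hsub : (W12 G).filter (BadW E) ⊆
      ((Finset.Ico E (G + 1)).biUnion (fun e => (W12 G).filter
        (fun c => 2 * e ≤ c.length ∧ Dom1 c e))) ∪
      ((Finset.Ico (G / 16) (G + 1)).biUnion (fun s => (W12 G).filter
        (fun c => 2 * s ≤ c.length ∧ Dom2 c s))) := by
    intro c hc
    rw [Finset.mem_filter] at hc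
    obtain ⟨hc1, hc2⟩ := hc
    have hc3 := hc1
    rw [mem_W12] at hc3
    have hlen := sum_le_of_12 hc3.1
    rw [hc3.2] at hlen
    rw [Finset.mem_union, Finset.mem_biUnion, Finset.mem_biUnion]
    rcases bad_cases hc2 with ⟨e, e1, e2, e3⟩ | ⟨s, s1, s2, s3⟩
    · left
      refine ⟨e, ?_, ?_⟩
      · rw [Finset.mem_Ico]; omega
      · rw [Finset.mem_filter]; exact ⟨hc1, e2, e3⟩
    · right
      refine ⟨s, ?_, ?_⟩
      · rw [Finset.mem_Ico]; omega
      · rw [Finset.mem_filter]; exact ⟨hc1, s2, s3⟩
  have hcard := (Finset.card_le_card hsub).trans (Finset.card_union_le _ _)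
  have h1 := Finset.card_biUnion_le (s := Finset.Ico E (G + 1)) (t := fun e => (W12 G).filter
        (fun c => 2 * e ≤ c.length ∧ Dom1 c e))
  have h2 := Finset.card_biUnion_le (s := Finset.Ico (G / 16) (G + 1)) (t := fun s =>
        (W12 G).filter (fun c => 2 * s ≤ c.length ∧ Dom2 c s))
  have h3 : ((W12 G).filter (BadW E)).card ≤
      ∑ e ∈ Finset.Ico E (G + 1), ((W12 G).filter (fun c => 2 * e ≤ c.length ∧ Dom1 c e)).card +
      ∑ s ∈ Finset.Ico (G / 16) (G + 1),
        ((W12 G).filter (fun c => 2 * s ≤ c.length ∧ Dom2 c s)).card :=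
    hcard.trans (add_le_add h1 h2)
  have h4 : (((W12 G).filter (BadW E)).card : ℝ) ≤
      ∑ e ∈ Finset.Ico E (G + 1),
        (((W12 G).filter (fun c => 2 * e ≤ c.length ∧ Dom1 c e)).card : ℝ) +
      ∑ s ∈ Finset.Ico (G / 16) (G + 1),
        (((W12 G).filter (fun c => 2 * s ≤ c.length ∧ Dom2 c s)).card : ℝ) := by
    exact_mod_cast h3
  calc _ ≤ (∑ e ∈ Finset.Ico E (G + 1),
        (((W12 G).filter (fun c => 2 * e ≤ c.length ∧ Dom1 c e)).card : ℝ) +
      ∑ s ∈ Finset.Ico (G / 16) (G + 1),
        (((W12 G).filter (fun c => 2 * s ≤ c.length ∧ Dom2 c s)).card : ℝ)) * ps ^ G :=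
        mul_le_mul_of_nonneg_right h4 (by positivity)
    _ ≤ ∑ e ∈ Finset.Ico E (G + 1), th ^ e + ∑ s ∈ Finset.Ico (G / 16) (G + 1), th ^ s := by
        rw [add_mul, Finset.sum_mul, Finset.sum_mul]
        apply add_le_add
        · exact Finset.sum_le_sum (fun e _ => count_dom1 G e)
        · exact Finset.sum_le_sum (fun s _ => count_dom2 G s)
    _ ≤ _ := add_le_add (geom_th _ _) (geom_th _ _)

end Pool.Agent.H32.NS
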