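import Mathlib

set_option autoImplicit false

namespace Pool.Agent.H32.NS

/-- The reciprocal of the golden ratio. -/
noncomputable def ps : ℝ := (√5 - 1) / 2

theorem ps_sq : ps ^ 2 = 1 - ps := by
  have h : √5 ^ 2 = (5 : ℝ) := Real.sq_sqrt (by norm_num)
  unfold ps; nlinarith

theorem ps_lt : ps < 61804 / 100000 := by
  have h : √5 < 2.23608 := by
    rw [Real.sqrt_lt' (by norm_num)]; norm_num
  unfold ps; linarith

theorem ps_gt : 61803 / 100000 < ps := by
  have h : 2.23606 < √5 := by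
    apply Real.lt_sqrt_of_sq_lt; norm_num
  unfold ps; linarith

theorem ps_pos : 0 < ps := by have := ps_gt; linarith
theorem ps_lt_one : ps < 1 := by have := ps_lt; linarith

/-- States: pairs of values with the reflection constraint. -/
def St (q : ℕ) : Finset (ℕ × ℕ) :=
  ((Finset.Icc 1 q) ×ˢ (Finset.Icc 1 q)).filter (fun s => q ≤ s.1 + s.2)

/-- Transition relation of the shift. -/
def Tr (s t : ℕ × ℕ) : Prop := t.1 ≤ s.1 + 1 ∧ s.2 ≤ t.2 + 1

instance (s t : ℕ × ℕ) : Decidable (Tr s t) := by unfold Tr; infer_instance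

noncomputable def wt (s : ℕ × ℕ) : ℝ := ps ^ (s.1 + s.2)

theorem wt_pos (s : ℕ × ℕ) : 0 < wt s := pow_pos ps_pos _

/-- Total weight of the chains of length `t` following the state `s`. -/
noncomputable def F (q : ℕ) : ℕ → ℕ × ℕ → ℝ
  | 0, _ => 1
  | t + 1, s => ∑ s' ∈ (St q).filter (fun s' => Tr s s'), wt s' * F q t s'

theorem F_nonneg (q t : ℕ) (s : ℕ × ℕ) : 0 ≤ F q t s := by
  induction t generalizing s with
  | zero => simp [F]
  | succ t ih =>
    simp only [F]
    exact Finset.sum_nonneg (fun s' _ => mul_nonneg (wt_pos s').le (ih s'))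

/-- Chains of length `t` following the state `s`. -/
def chainFrom (q : ℕ) : ℕ → ℕ × ℕ → Finset (List (ℕ × ℕ))
  | 0, _ => {[]}
  | t + 1, s => ((St q).filter (fun s' => Tr s s')).biUnion
      (fun s' => (chainFrom q t s').image (fun l => s' :: l))

noncomputable def W (l : List (ℕ × ℕ)) : ℝ := (l.map wt).prod

theorem W_nonneg (l : List (ℕ × ℕ)) : 0 ≤ W l := by
  unfold W
  apply List.prod_nonneg
  intro x hx
  obtain ⟨s, _, rfl⟩ := List.mem_map.mp hx
  exact (wt_pos s).le

theorem W_cons (s : ℕ × ℕ) (l : List (ℕ × ℕ)) : W (s :: l) = wt s * W l := by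
  simp [W]

theorem sum_cons (A : Finset (ℕ × ℕ)) (f : ℕ × ℕ → Finset (List (ℕ × ℕ))) :
    ∑ l ∈ A.biUnion (fun s => (f s).image (fun l => s :: l)), W l =
      ∑ s ∈ A, wt s * ∑ l ∈ f s, W l := by
  rw [Finset.sum_biUnion]
  · apply Finset.sum_congr rfl
    intro s _
    rw [Finset.sum_image (by intro x _ y _ h; exact (List.cons.inj h).2), Finset.mul_sum]
    apply Finset.sum_congr rfl
    intro l _
    exact W_cons s l
  · intro s _ s' _ hne
    rw [Function.onFun, Finset.disjoint_left]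
    intro l h1 h2
    rw [Finset.mem_image] at h1 h2
    obtain ⟨l1, _, rfl⟩ := h1
    obtain ⟨l2, _, h⟩ := h2
    exact hne (List.cons.inj h).1.symm

theorem sum_chainFrom (q t : ℕ) (s : ℕ × ℕ) : ∑ l ∈ chainFrom q t s, W l = F q t s := by
  induction t generalizing s with
  | zero => simp [chainFrom, F, W]
  | succ t ih =>
    simp only [chainFrom, F]
    rw [sum_cons]
    apply Finset.sum_congr rfl
    intro s' _
    rw [ih]

theorem mem_chainFrom (q : ℕ) (l : List (ℕ × ℕ)) (s : ℕ × ℕ) (h1 : ∀ x ∈ l, x ∈ St q)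
    (h2 : List.IsChain Tr (s :: l)) : l ∈ chainFrom q l.length s := by
  induction l generalizing s with
  | nil => simp [chainFrom]
  | cons s' l ih =>
    simp only [List.length_cons, chainFrom, Finset.mem_biUnion, Finset.mem_filter,
      Finset.mem_image]
    rw [List.isChain_cons_cons] at h2
    exact ⟨s', ⟨h1 s' (by simp), h2.1⟩, l, ih s' (fun x hx => h1 x (by simp [hx])) h2.2, rfl⟩

/-- Chains of length `L` whose first state lies in `I`. -/
def chains (q : ℕ) (I : Finset (ℕ × ℕ)) : ℕ → Finset (List (ℕ × ℕ))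
  | 0 => {[]}
  | t + 1 => I.biUnion (fun s => (chainFrom q t s).image (fun l => s :: l))

theorem sum_chains (q : ℕ) (I : Finset (ℕ × ℕ)) (t : ℕ) :
    ∑ l ∈ chains q I (t + 1), W l = ∑ s ∈ I, wt s * F q t s := by
  simp only [chains]
  rw [sum_cons]
  apply Finset.sum_congr rfl
  intro s _
  rw [sum_chainFrom]

theorem mem_chains (q : ℕ) (I : Finset (ℕ × ℕ)) (s : ℕ × ℕ) (l : List (ℕ × ℕ)) (hs : s ∈ I)
    (h1 : ∀ x ∈ l, x ∈ St q) (h2 : List.IsChain Tr (s :: l)) :
    (s :: l) ∈ chains q I (l.length + 1) := by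
  simp only [chains, Finset.mem_biUnion, Finset.mem_image]
  exact ⟨s, hs, l, mem_chainFrom q l s h1 h2, rfl⟩

/-! Rational upper bounds -/

/-- Rational version of `F`. -/
def Fq (q : ℕ) : ℕ → ℕ × ℕ → ℚ
  | 0, _ => 1
  | t + 1, s => ∑ s' ∈ (St q).filter (fun s' => Tr s s'),
      (61804 / 100000 : ℚ) ^ (s'.1 + s'.2) * Fq q t s'

theorem wt_le (s : ℕ × ℕ) : wt s ≤ (((61804 / 100000 : ℚ) ^ (s.1 + s.2) : ℚ) : ℝ) := by
  unfold wt
  push_cast
  exact pow_le_pow_left₀ ps_pos.le ps_lt.le _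

theorem Fq_nonneg (q t : ℕ) (s : ℕ × ℕ) : 0 ≤ Fq q t s := by
  induction t generalizing s with
  | zero => simp [Fq]
  | succ t ih =>
    simp only [Fq]
    exact Finset.sum_nonneg (fun s' _ => mul_nonneg (by positivity) (ih s'))

/-- If the rational quantities contract from step `j` on, then so do the real ones. -/
theorem F_le_of (q j : ℕ) (hj : ∀ s ∈ St q, Fq q (j + 1) s ≤ (97 / 100) * Fq q j s) (t : ℕ) :
    (∀ s, F q (min t j) s ≤ Fq q (min t j) s) ∧
    ∀ s ∈ St q, F q t s ≤ (97 / 100 : ℝ) ^ (t - j) * Fq q (min t j) s := by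
  have hlow : ∀ t s, F q t s ≤ Fq q t s := by
    intro t
    induction t with
    | zero => intro s; simp [F, Fq]
    | succ t ih =>
      intro s
      simp only [F, Fq]
      push_cast
      apply Finset.sum_le_sum
      intro s' _
      have h1 := wt_le s'
      push_cast at h1
      exact mul_le_mul h1 (ih s') (F_nonneg q t s') (by positivity)
  refine ⟨fun s => hlow _ s, ?_⟩
  rcases le_total t j with h | h
  · intro s _
    rw [min_eq_left h, Nat.sub_eq_zero_of_le h, pow_zero, one_mul]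
    exact hlow t s
  · obtain ⟨d, rfl⟩ := Nat.exists_eq_add_of_le h
    rw [min_eq_right h, Nat.add_sub_cancel_left]
    clear h
    induction d with
    | zero => intro s _; simpa using hlow j s
    | succ d ih =>
      intro s hs
      have h1 : F q (j + (d + 1)) s = ∑ s' ∈ (St q).filter (fun s' => Tr s s'),
          wt s' * F q (j + d) s' := rfl
      rw [h1]
      have h2 : ∑ s' ∈ (St q).filter (fun s' => Tr s s'), wt s' * F q (j + d) s' ≤
          ∑ s' ∈ (St q).filter (fun s' => Tr s s'),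
            (61804 / 100000 : ℝ) ^ (s'.1 + s'.2) * ((97 / 100 : ℝ) ^ d * Fq q j s') := by
        apply Finset.sum_le_sum
        intro s' hs'
        have h3 := wt_le s'
        push_cast at h3
        exact mul_le_mul h3 (ih s' (Finset.mem_filter.mp hs').1) (F_nonneg _ _ _) (by positivity)
      have h3 : ∑ s' ∈ (St q).filter (fun s' => Tr s s'),
            (61804 / 100000 : ℝ) ^ (s'.1 + s'.2) * ((97 / 100 : ℝ) ^ d * Fq q j s') =
            (97 / 100 : ℝ) ^ d * (Fq q (j + 1) s : ℝ) := by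
        simp only [Fq]
        push_cast
        rw [Finset.mul_sum]
        apply Finset.sum_congr rfl
        intro s' _
        ring
      have h4 : (Fq q (j + 1) s : ℝ) ≤ (97 / 100) * Fq q j s := by
        have := hj s hs
        have h5 : ((Fq q (j + 1) s : ℚ) : ℝ) ≤ (((97 / 100) * Fq q j s : ℚ) : ℝ) := by
          exact_mod_cast this
        push_cast at h5
        exact h5
      calc _ ≤ _ := h2
        _ = _ := h3
        _ ≤ (97 / 100 : ℝ) ^ d * ((97 / 100) * Fq q j s) :=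
          mul_le_mul_of_nonneg_left h4 (by positivity)
        _ = (97 / 100 : ℝ) ^ (d + 1) * Fq q j s := by ring

/-- Rational version of a chain sum. -/
def fq (q : ℕ) (I : Finset (ℕ × ℕ)) (t : ℕ) : ℚ :=
  ∑ s ∈ I, (61804 / 100000 : ℚ) ^ (s.1 + s.2) * Fq q t s

theorem chain_sum_le (q j : ℕ) (hj : ∀ s ∈ St q, Fq q (j + 1) s ≤ (97 / 100) * Fq q j s)
    (I : Finset (ℕ × ℕ)) (hI : I ⊆ St q) (t : ℕ) :
    ∑ s ∈ I, wt s * F q t s ≤ (97 / 100 : ℝ) ^ (t - j) * fq q I (min t j) := by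
  unfold fq
  push_cast
  rw [Finset.mul_sum]
  apply Finset.sum_le_sum
  intro s hs
  have h3 := wt_le s
  push_cast at h3
  calc wt s * F q t s ≤ (61804 / 100000 : ℝ) ^ (s.1 + s.2) *
        ((97 / 100 : ℝ) ^ (t - j) * Fq q (min t j) s) :=
        mul_le_mul h3 ((F_le_of q j hj t).2 s (hI hs)) (F_nonneg _ _ _) (by positivity)
    _ = _ := by ring

def Stu (q : ℕ) : Finset (ℕ × ℕ) := St q
def Sts (q : ℕ) : Finset (ℕ × ℕ) := (St q).filter (fun s => 2 ≤ s.1)
def Stb (q : ℕ) : Finset (ℕ × ℕ) := (St q).filter (fun s => 2 ≤ s.1 ∧ 2 ≤ s.2)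

/-- The numerical facts for one value of `q`. -/
def Num (q : ℕ) : Prop :=
  (∀ t, ∑ s ∈ St q, wt s * F q t s ≤ (115 / 100) * (97 / 100 : ℝ) ^ t) ∧
  (∀ t, ∑ s ∈ Sts q, wt s * F q t s ≤ (85 / 100) * (97 / 100 : ℝ) ^ t) ∧
  (∑ s ∈ Stb q, wt s ≤ (85 / 100 : ℝ) ^ 2)

/-- Reduction of `Num q` to finitely many rational inequalities. -/
theorem num_of_rat (q : ℕ) (h0 : ∀ s ∈ St q, Fq q 3 s ≤ (97 / 100) * Fq q 2 s)
    (h1 : fq q (St q) 0 ≤ 115 / 100) (h2 : fq q (St q) 1 ≤ (115 / 100) * (97 / 100))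
    (h3 : fq q (St q) 2 ≤ (115 / 100) * (97 / 100) ^ 2)
    (h4 : fq q (Sts q) 0 ≤ 85 / 100) (h5 : fq q (Sts q) 1 ≤ (85 / 100) * (97 / 100))
    (h6 : fq q (Sts q) 2 ≤ (85 / 100) * (97 / 100) ^ 2)
    (h7 : fq q (Stb q) 0 ≤ (85 / 100) ^ 2) : Num q := by
  have cast_le : ∀ {x y : ℚ}, x ≤ y → (x : ℝ) ≤ (y : ℝ) := fun h => by exact_mod_cast h
  have key : ∀ (I : Finset (ℕ × ℕ)) (hI : I ⊆ St q) (c : ℚ), fq q I 0 ≤ c →
      fq q I 1 ≤ c * (97 / 100) → fq q I 2 ≤ c * (97 / 100) ^ 2 →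
      ∀ t, ∑ s ∈ I, wt s * F q t s ≤ c * (97 / 100 : ℝ) ^ t := by
    intro I hI c g0 g1 g2 t
    have h := chain_sum_le q 2 h0 I hI t
    have e0 := cast_le g0
    have e1 := cast_le g1
    have e2 := cast_le g2
    push_cast at e0 e1 e2
    match t, h with
    | 0, h =>
      simp only [Nat.zero_sub, pow_zero, one_mul, zero_le, min_eq_left] at h
      simpa using h.trans e0
    | 1, h =>
      have h1 : min 1 2 = 1 := rfl
      have h2 : 1 - 2 = 0 := rfl
      rw [h1, h2, pow_zero, one_mul] at h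
      simpa using h.trans e1
    | t + 2, h =>
      have h1 : min (t + 2) 2 = 2 := by omega
      have h2 : t + 2 - 2 = t := by omega
      rw [h1, h2] at h
      calc _ ≤ _ := h
        _ ≤ (97 / 100 : ℝ) ^ t * (c * (97 / 100) ^ 2) :=
          mul_le_mul_of_nonneg_left e2 (by positivity)
        _ = c * (97 / 100 : ℝ) ^ (t + 2) := by ring
  refine ⟨?_, ?_, ?_⟩
  · have := key (St q) (Finset.Subset.refl _) (115 / 100) h1 h2 h3
    push_cast at this
    exact this
  · have := key (Sts q) (Finset.filter_subset _ _) (85 / 100) h4 h5 h6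
    push_cast at this
    exact this
  · have h := chain_sum_le q 2 h0 (Stb q) (Finset.filter_subset _ _) 0
    have e := cast_le h7
    push_cast at e
    simp only [Nat.zero_sub, pow_zero, one_mul, zero_le, min_eq_left, F, mul_one] at h
    exact h.trans e

end Pool.Agent.H32.NS
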