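import Pool.Agent.H32.NS.Sym

set_option autoImplicit false

namespace Pool.Agent.H32.NS

/-- Kunz conditions for a word (residue `i + 1` has the value with index `i`). -/
structure Kunz (l : List ℕ) : Prop where
  pos : ∀ i < l.length, 1 ≤ l.getD i 0
  sub : ∀ i j, i + j + 1 < l.length → l.getD (i + j + 1) 0 ≤ l.getD i 0 + l.getD j 0
  wrap : ∀ i j, i < l.length → j < l.length → l.length ≤ i + j →
    l.getD (i + j - l.length) 0 ≤ l.getD i 0 + l.getD j 0 + 1

/-- Index of the smallest residue with value one (`length` if there is none), plus one. -/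
structure MinOne (l : List ℕ) (a : ℕ) : Prop where
  pos : 0 < a
  le : a ≤ l.length + 1
  one : a ≤ l.length → l.getD (a - 1) 0 = 1
  two : ∀ i, i + 1 < a → i < l.length → l.getD i 0 ≠ 1

theorem exists_minOne (l : List ℕ) : ∃ a, MinOne l a := by
  classical
  by_cases h : ∃ i, i < l.length ∧ l.getD i 0 = 1
  · obtain ⟨h1, h2⟩ := Nat.find_spec h
    refine ⟨Nat.find h + 1, by omega, by omega, fun _ => by simpa using h2, ?_⟩
    intro i hi hil h3
    exact Nat.find_min h (by omega : i < Nat.find h) ⟨hil, h3⟩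
  · push Not at h
    exact ⟨l.length + 1, by omega, le_rfl, fun h' => by omega, fun i _ hil => h i hil⟩

/-- The last position of the maximum. -/
structure LastMax (l : List ℕ) (q R : ℕ) : Prop where
  lt : R < l.length
  eq : l.getD R 0 = q
  le : ∀ i < l.length, l.getD i 0 ≤ q
  after : ∀ i, R < i → i < l.length → l.getD i 0 < q

theorem exists_lastMax (l : List ℕ) (hl : l ≠ []) : ∃ q R, LastMax l q R := by
  classical
  have hne : (Finset.range l.length).Nonempty := by
    rw [Finset.nonempty_range_iff]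
    exact fun h => hl (List.length_eq_zero_iff.mp h)
  obtain ⟨i0, hi0, hmax⟩ := Finset.exists_max_image (Finset.range l.length)
    (fun i => l.getD i 0) hne
  set A := (Finset.range l.length).filter (fun i => l.getD i 0 = l.getD i0 0) with hA
  have hAne : A.Nonempty := ⟨i0, by rw [hA, Finset.mem_filter]; exact ⟨hi0, rfl⟩⟩
  have hR := Finset.mem_filter.mp (Finset.max'_mem A hAne)
  rw [Finset.mem_range] at hR
  refine ⟨l.getD i0 0, A.max' hAne, hR.1, hR.2, ?_, ?_⟩
  · intro i hi
    exact hmax i (Finset.mem_range.mpr hi)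
  · intro i hi hil
    apply lt_of_le_of_ne (hmax i (Finset.mem_range.mpr hil))
    intro h
    have hiA : i ∈ A := by
      rw [hA, Finset.mem_filter, Finset.mem_range]; exact ⟨hil, h⟩
    have := Finset.le_max' A i hiA
    omega

theorem getD_take {l : List ℕ} {R i : ℕ} (h : i < R) : (l.take R).getD i 0 = l.getD i 0 := by
  simp [List.getD_eq_getElem?_getD, h]

theorem getD_drop (l : List ℕ) (R i : ℕ) : (l.drop R).getD i 0 = l.getD (R + i) 0 := by
  simp [List.getD_eq_getElem?_getD, List.getElem?_drop]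

theorem low_sym {l : List ℕ} {q R a : ℕ} (hk : Kunz l) (hm : LastMax l q R) (ha : MinOne l a) :
    SymL q R a (a - 1) (l.take R) := by
  have hR := hm.lt
  refine ⟨by simp; omega, ?_, ?_, ?_, ?_, ?_⟩
  · intro i hi; rw [getD_take hi]; exact hk.pos i (by omega)
  · intro i hi; rw [getD_take hi]; exact hm.le i (by omega)
  · intro i hi
    rw [getD_take hi, getD_take (by omega)]
    have h1 := hk.sub i (R - 1 - i) (by omega)
    have h2 : i + (R - 1 - i) + 1 = R := by omega
    rw [h2, hm.eq] at h1
    exact h1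
  · intro i hi
    rw [getD_take hi, getD_take (by omega)]
    have h0 := ha.pos
    have h1 := hk.sub i (a - 1) (by omega)
    rw [ha.one (by omega)] at h1
    have h2 : i + (a - 1) + 1 = i + a := by omega
    rwa [h2] at h1
  · intro i hi hia
    rw [getD_take hi]
    have h1 := ha.two i (by omega) (by omega)
    have h2 := hk.pos i (by omega)
    omega

theorem high_sym {l : List ℕ} {q R a : ℕ} (hk : Kunz l) (hm : LastMax l q R) (ha : MinOne l a) :
    SymL (q - 1) (l.length - R - 1) a (a - 2 - R) (l.drop (R + 1)) := by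
  have hR := hm.lt
  refine ⟨by simp; omega, ?_, ?_, ?_, ?_, ?_⟩
  · intro i hi; rw [getD_drop]; exact hk.pos _ (by omega)
  · intro i hi; rw [getD_drop]
    have := hm.after (R + 1 + i) (by omega) (by omega)
    omega
  · intro i hi
    rw [getD_drop, getD_drop]
    have h1 := hk.wrap (R + 1 + i) (R + 1 + (l.length - R - 1 - 1 - i)) (by omega) (by omega)
      (by omega)
    have h2 : R + 1 + i + (R + 1 + (l.length - R - 1 - 1 - i)) - l.length = R := by omega
    rw [h2, hm.eq] at h1
    omega
  · intro i hi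
    rw [getD_drop, getD_drop]
    have h0 := ha.pos
    have h1 := hk.sub (R + 1 + i) (a - 1) (by omega)
    rw [ha.one (by omega)] at h1
    have h2 : R + 1 + i + (a - 1) + 1 = R + 1 + (i + a) := by omega
    rwa [h2] at h1
  · intro i hi hia
    rw [getD_drop]
    have h1 := ha.two (R + 1 + i) (by omega) (by omega)
    have h2 := hk.pos (R + 1 + i) (by omega)
    omega

theorem split_at (l : List ℕ) {R : ℕ} (h : R < l.length) :
    l = l.take R ++ (l.getD R 0) :: l.drop (R + 1) := by
  rw [List.getD_eq_getElem _ _ h, ← List.drop_eq_getElem_cons h, List.take_append_drop]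

/-- The sum over a finite family of Kunz words with prescribed parameters. -/
theorem fam_le {q R n a : ℕ} (hq : 4 ≤ q) (X : Finset (List ℕ))
    (hX : ∀ l ∈ X, Kunz l ∧ l.length = R + 1 + n ∧ LastMax l q R ∧ MinOne l a) :
    ∑ l ∈ X, ps ^ l.sum ≤ ps ^ q * (Yb R a (a - 1) * Yb n a (a - 2 - R)) := by
  classical
  have h0 := ps_pos
  rcases X.eq_empty_or_nonempty with rfl | ⟨l0, hl0⟩
  · simp only [Finset.sum_empty]
    unfold Yb
    positivity
  have ha : 0 < a := (hX l0 hl0).2.2.2.pos
  set φ : List ℕ → List ℕ × List ℕ := fun l => (l.take R, l.drop (R + 1)) with hφ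
  set G : List ℕ × List ℕ → ℝ := fun d => ps ^ q * (ps ^ d.1.sum * ps ^ d.2.sum) with hG
  have hw : ∀ l ∈ X, ps ^ l.sum = G (φ l) := by
    intro l hl
    obtain ⟨h1, h2, h3, h4⟩ := hX l hl
    conv_lhs => rw [split_at l h3.lt, h3.eq]
    rw [List.sum_append, List.sum_cons, pow_add, pow_add]
    simp only [hG, hφ]
    ring
  have hinj : Set.InjOn φ (X : Set (List ℕ)) := by
    intro l hl l' hl' hll
    obtain ⟨h1, h2, h3, h4⟩ := hX l hl
    obtain ⟨h1', h2', h3', h4'⟩ := hX l' hl'
    simp only [hφ, Prod.mk.injEq] at hll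
    rw [split_at l h3.lt, split_at l' h3'.lt, h3.eq, h3'.eq, hll.1, hll.2]
  calc ∑ l ∈ X, ps ^ l.sum = ∑ l ∈ X, G (φ l) := Finset.sum_congr rfl hw
    _ = ∑ d ∈ X.image φ, G d := (Finset.sum_image hinj).symm
    _ ≤ ∑ d ∈ (X.image (fun l => l.take R)) ×ˢ (X.image (fun l => l.drop (R + 1))), G d := by
        apply Finset.sum_le_sum_of_subset_of_nonneg
        · intro d hd
          obtain ⟨l, hl, rfl⟩ := Finset.mem_image.mp hd
          rw [Finset.mem_product]
          exact ⟨Finset.mem_image_of_mem _ hl, Finset.mem_image_of_mem _ hl⟩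
        · intro d _ _; simp only [hG]; positivity
    _ = ps ^ q * ((∑ b ∈ X.image (fun l => l.take R), ps ^ b.sum) *
          ∑ c ∈ X.image (fun l => l.drop (R + 1)), ps ^ c.sum) := by
        rw [Finset.sum_product, Finset.sum_mul, Finset.mul_sum]
        apply Finset.sum_congr rfl
        intro b _
        rw [Finset.mul_sum, Finset.mul_sum]
    _ ≤ ps ^ q * (Yb R a (a - 1) * Yb n a (a - 2 - R)) := by
        apply mul_le_mul_of_nonneg_left _ (by positivity)
        apply mul_le_mul
        · apply sum_sym (q := q) (by omega) ha (by omega)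
          intro b hb
          obtain ⟨l, hl, rfl⟩ := Finset.mem_image.mp hb
          obtain ⟨h1, h2, h3, h4⟩ := hX l hl
          exact low_sym h1 h3 h4
        · apply sum_sym (q := q - 1) (by omega) ha (by omega)
          intro b hb
          obtain ⟨l, hl, rfl⟩ := Finset.mem_image.mp hb
          obtain ⟨h1, h2, h3, h4⟩ := hX l hl
          have := high_sym h1 h3 h4
          have e : l.length - R - 1 = n := by omega
          rwa [e] at this
        · exact Finset.sum_nonneg (fun c _ => by positivity)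
        · unfold Yb; positivity

/-- A combined exponential bound. -/
theorem pow_combine {e g k N : ℕ} (h1 : g ≤ e + 3) (h2 : N ≤ e + g + k + 1) :
    (85 / 100 : ℝ) ^ e * (115 / 100) ^ g * (97 / 100) ^ k ≤ 2 * (99 / 100 : ℝ) ^ N := by
  have key : (85 / 100 : ℝ) ^ e * (115 / 100) ^ g ≤ (19 / 10) * (99 / 100 : ℝ) ^ (e + g) := by
    rcases Nat.lt_or_ge e g with h | h
    · obtain ⟨d, rfl⟩ := Nat.exists_eq_add_of_le h.le
      have hd : d ≤ 3 := by omega
      have e1 : (85 / 100 : ℝ) ^ e * (115 / 100) ^ (e + d) =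
          ((85 / 100) * (115 / 100)) ^ e * (115 / 100) ^ d := by
        rw [mul_pow, pow_add]; ring
      have e2 : (99 / 100 : ℝ) ^ (e + (e + d)) = ((99 / 100) * (99 / 100)) ^ e * (99 / 100) ^ d := by
        rw [mul_pow, pow_add, pow_add]; ring
      rw [e1, e2]
      have e3 : ((85 / 100) * (115 / 100) : ℝ) ^ e ≤ ((99 / 100) * (99 / 100)) ^ e :=
        pow_le_pow_left₀ (by norm_num) (by norm_num) e
      have e4 : (115 / 100 : ℝ) ^ d ≤ (19 / 10) * (99 / 100) ^ d := by
        interval_cases d <;> norm_num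
      calc ((85 / 100) * (115 / 100) : ℝ) ^ e * (115 / 100) ^ d
          ≤ ((99 / 100) * (99 / 100)) ^ e * ((19 / 10) * (99 / 100) ^ d) :=
            mul_le_mul e3 e4 (by positivity) (by positivity)
        _ = _ := by ring
    · obtain ⟨d, rfl⟩ := Nat.exists_eq_add_of_le h
      have e1 : (85 / 100 : ℝ) ^ (g + d) * (115 / 100) ^ g =
          ((85 / 100) * (115 / 100)) ^ g * (85 / 100) ^ d := by
        rw [mul_pow, pow_add]; ring
      have e2 : (99 / 100 : ℝ) ^ (g + d + g) = ((99 / 100) * (99 / 100)) ^ g * (99 / 100) ^ d := by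
        rw [mul_pow, pow_add, pow_add]; ring
      rw [e1, e2]
      have e3 : ((85 / 100) * (115 / 100) : ℝ) ^ g ≤ ((99 / 100) * (99 / 100)) ^ g :=
        pow_le_pow_left₀ (by norm_num) (by norm_num) g
      have e4 : (85 / 100 : ℝ) ^ d ≤ (99 / 100) ^ d :=
        pow_le_pow_left₀ (by norm_num) (by norm_num) d
      calc ((85 / 100) * (115 / 100) : ℝ) ^ g * (85 / 100) ^ d
          ≤ ((99 / 100) * (99 / 100)) ^ g * (99 / 100) ^ d :=
            mul_le_mul e3 e4 (by positivity) (by positivity)
        _ ≤ _ := by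
            have : (0 : ℝ) ≤ ((99 / 100) * (99 / 100)) ^ g * (99 / 100) ^ d := by positivity
            linarith
  have e5 : (97 / 100 : ℝ) ^ k ≤ (99 / 100) ^ k :=
    pow_le_pow_left₀ (by norm_num) (by norm_num) k
  have e6 : (99 / 100 : ℝ) ^ (e + g + k + 1) ≤ (99 / 100) ^ N :=
    pow_le_pow_of_le_one (by norm_num) (by norm_num) h2
  calc (85 / 100 : ℝ) ^ e * (115 / 100) ^ g * (97 / 100) ^ k
      ≤ ((19 / 10) * (99 / 100 : ℝ) ^ (e + g)) * (99 / 100) ^ k :=
        mul_le_mul key e5 (by positivity) (by positivity)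
    _ = (19 / 10) / (99 / 100) * (99 / 100 : ℝ) ^ (e + g + k + 1) := by
        rw [pow_succ, pow_add _ (e + g) k]; ring
    _ ≤ 2 * (99 / 100 : ℝ) ^ N := by
        apply mul_le_mul (by norm_num) e6 (by positivity) (by norm_num)

theorem Yb_mul (R n a : ℕ) :
    Yb R a (a - 1) * Yb n a (a - 2 - R) ≤ 32 * (99 / 100 : ℝ) ^ (R / 2 + n / 2) := by
  unfold Yb
  have h := pow_combine (e := min (a - 1) R + min (a - 2 - R) n)
    (g := (min a (R / 2) - (a - 1)) + (min a (n / 2) - (a - 2 - R)))
    (k := (R / 2 - min a (R / 2)) + (n / 2 - min a (n / 2))) (N := R / 2 + n / 2)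
    (by omega) (by omega)
  rw [pow_add, pow_add _ (min a (R / 2) - (a - 1)), pow_add _ (R / 2 - min a (R / 2))] at h
  nlinarith [h]

theorem Yb_one (R a : ℕ) :
    Yb R a (a - 1) ≤ 8 * (99 / 100 : ℝ) ^ (R / 2) := by
  unfold Yb
  have h := pow_combine (e := min (a - 1) R) (g := min a (R / 2) - (a - 1))
    (k := R / 2 - min a (R / 2)) (N := R / 2) (by omega) (by omega)
  linarith

end Pool.Agent.H32.NS
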