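import Pool.Agent.H32.NS.Typ

set_option autoImplicit false

namespace Pool.Agent.H32.NS

open Filter Topology

theorem abs_sign (n : ℕ) : |(-1 : ℤ) ^ n| = 1 := by
  rw [abs_pow, abs_neg, abs_one, one_pow]

theorem abs_prod_sign {α : Type*} (s : Finset α) (q : α → Prop) [DecidablePred q] :
    |∏ i ∈ s, (if q i then (-1 : ℤ) else 1)| = 1 := by
  rw [Finset.abs_prod]
  apply Finset.prod_eq_one
  intro i _
  split_ifs <;> simp

open Classical in
/-- The signed sum over the words with prefix `p`. -/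
theorem signed_bound {p : List ℕ} (hp : Pre p) (E G : ℕ) (hG : 4 * (p.length + E) ≤ G) :
    |∑ c ∈ W12 G, (-1 : ℤ) ^ ty (p ++ c)| ≤
      4 ^ (p.length + E) + 2 * (((W12 G).filter (BadW E)).card : ℤ) := by
  set J := p.length + E with hJ
  have h1 := sum_W12_both J G hG (fun c => (-1 : ℤ) ^ ty (p ++ c))
  have h2 := sum_W12_both J G hG (fun c => if BadW E c then (1 : ℤ) else 0)
  have hcard : ∑ c ∈ W12 G, (if BadW E c then (1 : ℤ) else 0) =
      (((W12 G).filter (BadW E)).card : ℤ) := by
    rw [Finset.sum_ite, Finset.sum_const_zero, add_zero, Finset.sum_const, nsmul_eq_mul, mul_one]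
  rw [hcard] at h2
  set S : List ℕ → List ℕ → ℤ := fun u y =>
    Asg p * Tsg p.length J (p ++ u) y * (-1) ^ u.count 2 with hS
  have hSabs : ∀ u y, |S u y| = 1 := by
    intro u y
    simp only [hS, Asg, Tsg]
    rw [abs_mul, abs_mul, abs_sign, abs_prod_sign, abs_prod_sign]
    norm_num
  have hmain : |∑ u ∈ V J, ∑ y ∈ V J, ∑ v ∈ W12 (G - u.sum - y.sum), S u y * (-1) ^ v.count 2| ≤
      4 ^ J := by
    calc _ ≤ ∑ u ∈ V J, ∑ y ∈ V J, |∑ v ∈ W12 (G - u.sum - y.sum), S u y * (-1) ^ v.count 2| := by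
          refine (Finset.abs_sum_le_sum_abs _ _).trans ?_
          apply Finset.sum_le_sum
          intro u _
          exact Finset.abs_sum_le_sum_abs _ _
      _ ≤ ∑ u ∈ V J, ∑ y ∈ V J, (1 : ℤ) := by
          apply Finset.sum_le_sum
          intro u _
          apply Finset.sum_le_sum
          intro y _
          rw [← Finset.mul_sum, abs_mul, hSabs, one_mul]
          exact (SE_bound _).1
      _ = 4 ^ J := by
          simp only [Finset.sum_const, card_V, nsmul_eq_mul, mul_one]
          push_cast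
          rw [← mul_pow]
          norm_num
  have hdiff : |∑ c ∈ W12 G, (-1 : ℤ) ^ ty (p ++ c) -
      ∑ u ∈ V J, ∑ y ∈ V J, ∑ v ∈ W12 (G - u.sum - y.sum), S u y * (-1) ^ v.count 2| ≤
      2 * (((W12 G).filter (BadW E)).card : ℤ) := by
    rw [h1, h2, ← Finset.sum_sub_distrib, Finset.mul_sum]
    refine (Finset.abs_sum_le_sum_abs _ _).trans ?_
    apply Finset.sum_le_sum
    intro u hu
    rw [← Finset.sum_sub_distrib, Finset.mul_sum]
    refine (Finset.abs_sum_le_sum_abs _ _).trans ?_
    apply Finset.sum_le_sum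
    intro y hy
    rw [← Finset.sum_sub_distrib, Finset.mul_sum]
    refine (Finset.abs_sum_le_sum_abs _ _).trans ?_
    apply Finset.sum_le_sum
    intro v hv
    rw [mem_W12] at hv
    by_cases hbad : BadW E (u ++ (v ++ y))
    · rw [if_pos hbad]
      calc |(-1 : ℤ) ^ ty (p ++ (u ++ (v ++ y))) - S u y * (-1) ^ v.count 2|
          ≤ |(-1 : ℤ) ^ ty (p ++ (u ++ (v ++ y)))| + |S u y * (-1) ^ v.count 2| := abs_sub _ _
        _ = 2 := by rw [abs_mul, hSabs, abs_sign, abs_sign]; norm_num
        _ = 2 * 1 := by norm_num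
    · rw [if_neg hbad, sign_decomp hp (E := E) le_rfl hu hy hv.1 hbad]
      simp only [hS]
      rw [sub_self, abs_zero, mul_zero]
  have := abs_sub_abs_le_abs_sub (∑ c ∈ W12 G, (-1 : ℤ) ^ ty (p ++ c))
    (∑ u ∈ V J, ∑ y ∈ V J, ∑ v ∈ W12 (G - u.sum - y.sum), S u y * (-1) ^ v.count 2)
  linarith

/-- The normalized signed sum with prefix `p` tends to zero. -/
theorem signed_tendsto {p : List ℕ} (hp : Pre p) :
    Tendsto (fun G : ℕ => ((∑ c ∈ W12 G, (-1 : ℤ) ^ ty (p ++ c) : ℤ) : ℝ) * ps ^ G)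
      atTop (𝓝 0) := by
  classical
  have h0 := ps_pos
  have h1 := ps_lt_one
  have ht0 := th_pos
  have ht1 : th < 1 := by have := th_lt; linarith
  rw [Metric.tendsto_atTop]
  intro ε hε
  obtain ⟨E, hE⟩ : ∃ E, 10 * th ^ E < ε / 3 := by
    obtain ⟨E, hE⟩ := exists_pow_lt_of_lt_one (show 0 < ε / 30 by positivity) ht1
    exact ⟨E, by linarith⟩
  set J := p.length + E with hJ
  obtain ⟨A, hA⟩ : ∃ A, ∀ n, A ≤ n → (4 : ℝ) ^ J * ps ^ n < ε / 3 := by
    obtain ⟨A, hA⟩ := exists_pow_lt_of_lt_one (show 0 < ε / 3 / 4 ^ J by positivity) h1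
    refine ⟨A, fun n hn => ?_⟩
    have h2 : ps ^ n ≤ ps ^ A := pow_le_pow_of_le_one h0.le h1.le hn
    have h3 : ps ^ n < ε / 3 / 4 ^ J := lt_of_le_of_lt h2 hA
    rw [lt_div_iff₀ (by positivity)] at h3
    linarith
  obtain ⟨B, hB⟩ : ∃ B, ∀ n, B ≤ n → 10 * th ^ n < ε / 3 := by
    refine ⟨E, fun n hn => ?_⟩
    have h2 : th ^ n ≤ th ^ E := pow_le_pow_of_le_one ht0.le ht1.le hn
    linarith
  refine ⟨max (4 * J) (max A (16 * B)), ?_⟩
  intro G hG
  have hG1 : 4 * J ≤ G := le_trans (le_max_left _ _) hG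
  have hG2 : A ≤ G := le_trans (le_trans (le_max_left _ _) (le_max_right _ _)) hG
  have hG3 : 16 * B ≤ G := le_trans (le_trans (le_max_right _ _) (le_max_right _ _)) hG
  rw [Real.dist_eq, sub_zero, abs_mul, abs_of_pos (pow_pos h0 G)]
  have h2 := signed_bound hp E G hG1
  have h3 : |((∑ c ∈ W12 G, (-1 : ℤ) ^ ty (p ++ c) : ℤ) : ℝ)| ≤
      4 ^ J + 2 * (((W12 G).filter (BadW E)).card : ℝ) := by
    rw [← Int.cast_abs]
    exact_mod_cast h2
  have h4 := count_bad G E
  have h5 := hA G hG2
  have h6 := hB (G / 16) (by omega)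
  calc |((∑ c ∈ W12 G, (-1 : ℤ) ^ ty (p ++ c) : ℤ) : ℝ)| * ps ^ G
      ≤ (4 ^ J + 2 * (((W12 G).filter (BadW E)).card : ℝ)) * ps ^ G :=
        mul_le_mul_of_nonneg_right h3 (by positivity)
    _ = 4 ^ J * ps ^ G + 2 * ((((W12 G).filter (BadW E)).card : ℝ) * ps ^ G) := by ring
    _ < ε := by linarith

/-! All words with positive entries and given sum -/

def Comps (g : ℕ) : Finset (List ℕ) :=
  (Finset.univ : Finset (Composition g)).image (fun c => c.blocks)

theorem mem_Comps (g : ℕ) (l : List ℕ) : l ∈ Comps g ↔ (∀ x ∈ l, 0 < x) ∧ l.sum = g := by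
  unfold Comps
  rw [Finset.mem_image]
  constructor
  · rintro ⟨c, _, rfl⟩
    exact ⟨fun x hx => c.blocks_pos hx, c.blocks_sum⟩
  · rintro ⟨h1, h2⟩
    exact ⟨⟨l, fun {i} hi => h1 i hi, h2⟩, Finset.mem_univ _, rfl⟩

theorem Kunz.pos_mem {l : List ℕ} (h : Kunz l) : ∀ x ∈ l, 0 < x := by
  intro x hx
  obtain ⟨i, hi, rfl⟩ := List.mem_iff_getElem.mp hx
  have := h.pos i hi
  rw [List.getD_eq_getElem _ _ hi] at this
  exact this

open Classical in
/-- The Kunz words of sum `g`. -/
noncomputable def KW (g : ℕ) : Finset (List ℕ) := (Comps g).filter Kunz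

theorem mem_KW (g : ℕ) (l : List ℕ) : l ∈ KW g ↔ Kunz l ∧ l.sum = g := by
  classical
  unfold KW
  rw [Finset.mem_filter, mem_Comps]
  constructor
  · rintro ⟨⟨_, h2⟩, h3⟩; exact ⟨h3, h2⟩
  · rintro ⟨h1, h2⟩; exact ⟨⟨h1.pos_mem, h2⟩, h1⟩

def Shallow (l : List ℕ) : Prop := ∀ i < l.length, l.getD i 0 ≤ 3

open Classical in
noncomputable def KWs (g : ℕ) : Finset (List ℕ) := (KW g).filter Shallow
open Classical in
noncomputable def KWd (g : ℕ) : Finset (List ℕ) := (KW g).filter (fun l => ¬ Shallow l)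

open Classical in
noncomputable def PreF (g : ℕ) : Finset (List ℕ) :=
  ((Finset.range (g + 1)).biUnion Comps).filter Pre

theorem mem_PreF (g : ℕ) (p : List ℕ) : p ∈ PreF g ↔ Pre p ∧ p.sum ≤ g := by
  classical
  unfold PreF
  rw [Finset.mem_filter, Finset.mem_biUnion]
  constructor
  · rintro ⟨⟨s, hs, h1⟩, h2⟩
    rw [mem_Comps] at h1
    rw [Finset.mem_range] at hs
    exact ⟨h2, by omega⟩
  · rintro ⟨h1, h2⟩
    exact ⟨⟨p.sum, by rw [Finset.mem_range]; omega, by
      rw [mem_Comps]; exact ⟨h1.1.pos_mem, rfl⟩⟩, h1⟩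

theorem kunz_append {p c : List ℕ} (hp : Pre p) (hc : ∀ x ∈ c, x = 1 ∨ x = 2) :
    Kunz (p ++ c) ∧ Shallow (p ++ c) := by
  refine ⟨⟨fun i hi => (entry_bounds hp hc hi).1, ?_, ?_⟩, fun i hi => (entry_bounds hp hc hi).2⟩
  · intro i j hij
    have hb1 := entry_bounds hp hc (i := i) (by omega)
    have hb2 := entry_bounds hp hc (i := j) (by omega)
    rcases Nat.lt_or_ge (i + j + 1) p.length with h | h
    · rw [getD_app_left h, getD_app_left (show i < p.length by omega),
        getD_app_left (show j < p.length by omega)]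
      exact hp.1.sub i j h
    · have := entry_high hp hc h hij
      omega
  · intro i j hi hj hij
    have hb1 := entry_bounds hp hc hi
    have hb2 := entry_bounds hp hc hj
    have hb3 := entry_bounds hp hc (i := i + j - (p ++ c).length) (by omega)
    omega

theorem pre_nil : Pre [] := by
  refine ⟨⟨by simp, by simp, by simp⟩, by simp, by simp⟩

theorem exists_split {l : List ℕ} (hk : Kunz l) (hs : Shallow l) :
    ∃ p c, Pre p ∧ (∀ x ∈ c, x = 1 ∨ x = 2) ∧ l = p ++ c := by
  classical
  by_cases h : ∃ i, i < l.length ∧ l.getD i 0 = 3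
  · -- last index with value three
    obtain ⟨i0, hi0, h3⟩ := h
    set A := (Finset.range l.length).filter (fun i => l.getD i 0 = 3) with hA
    have hAne : A.Nonempty := ⟨i0, by
      rw [hA, Finset.mem_filter, Finset.mem_range]; exact ⟨hi0, h3⟩⟩
    have hR := Finset.mem_filter.mp (Finset.max'_mem A hAne)
    rw [Finset.mem_range] at hR
    obtain ⟨hR1, hR2⟩ := hR
    have hmax : ∀ i, i < l.length → l.getD i 0 = 3 → i ≤ A.max' hAne := by
      intro i hi h
      apply Finset.le_max' A i
      rw [hA, Finset.mem_filter, Finset.mem_range]; exact ⟨hi, h⟩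
    generalize A.max' hAne = R at hR1 hR2 hmax
    refine ⟨l.take (R + 1), l.drop (R + 1), ?_, ?_, (List.take_append_drop _ _).symm⟩
    · have hlen : (l.take (R + 1)).length = R + 1 := by rw [List.length_take]; omega
      refine ⟨⟨?_, ?_, ?_⟩, ?_, ?_⟩
      · intro i hi
        rw [hlen] at hi
        rw [getD_take hi]; exact hk.pos i (by omega)
      · intro i j hij
        rw [hlen] at hij
        rw [getD_take hij, getD_take (show i < R + 1 by omega),
          getD_take (show j < R + 1 by omega)]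
        exact hk.sub i j (by omega)
      · intro i j hi hj hij
        rw [hlen] at hi hj hij ⊢
        rw [getD_take hi, getD_take hj, getD_take (show i + j - (R + 1) < R + 1 by omega)]
        have h1 := hk.pos i (by omega)
        have h2 := hk.pos j (by omega)
        have h3 := hs (i + j - (R + 1)) (by omega)
        omega
      · intro i hi
        rw [hlen] at hi
        rw [getD_take hi]; exact hs i (by omega)
      · intro _
        rw [hlen, Nat.add_sub_cancel, getD_take (by omega)]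
        exact hR2
    · intro x hx
      obtain ⟨i, hi, rfl⟩ := List.mem_iff_getElem.mp hx
      have e1 : (l.drop (R + 1))[i] = l.getD (R + 1 + i) 0 := by
        rw [← getD_drop, List.getD_eq_getElem _ _ hi]
      rw [List.length_drop] at hi
      rw [e1]
      have h1 := hk.pos (R + 1 + i) (by omega)
      have h2 := hs (R + 1 + i) (by omega)
      have h3 : l.getD (R + 1 + i) 0 ≠ 3 := by
        intro h
        have := hmax _ (by omega) h
        omega
      omega
  · push Not at h
    refine ⟨[], l, pre_nil, ?_, rfl⟩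
    intro x hx
    obtain ⟨i, hi, rfl⟩ := List.mem_iff_getElem.mp hx
    have h1 := hk.pos i hi
    have h2 := hs i hi
    have h3 := h i hi
    rw [List.getD_eq_getElem _ _ hi] at h1 h2 h3
    omega

theorem split_unique {p c p' c' : List ℕ} (hp : Pre p) (hp' : Pre p')
    (hc : ∀ x ∈ c, x = 1 ∨ x = 2) (hc' : ∀ x ∈ c', x = 1 ∨ x = 2)
    (h : p ++ c = p' ++ c') : p = p' ∧ c = c' := by
  have key : ∀ {p c p' c' : List ℕ}, Pre p' → (∀ x ∈ c, x = 1 ∨ x = 2) →
      p ++ c = p' ++ c' → ¬ p.length < p'.length := by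
    intro p c p' c' hp' hc h hlt
    have hne : p' ≠ [] := by
      rintro rfl
      simp at hlt
    have h3 := hp'.2.2 hne
    have hl := congrArg List.length h
    rw [List.length_append, List.length_append] at hl
    have h4 : (p ++ c).getD (p'.length - 1) 0 = 3 := by
      rw [h, getD_app_left (by omega)]; exact h3
    rw [getD_app_right (by omega)] at h4
    rcases getD_12 hc (i := p'.length - 1 - p.length) (by omega) with h5 | h5 <;> omega
  have h1 := key hp' hc h
  have h2 := key hp hc' h.symm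
  exact List.append_inj h (by omega)

theorem sum_KWs (g : ℕ) (f : List ℕ → ℤ) :
    ∑ l ∈ KWs g, f l = ∑ p ∈ PreF g, ∑ c ∈ W12 (g - p.sum), f (p ++ c) := by
  classical
  rw [Finset.sum_sigma']
  symm
  apply Finset.sum_bij (fun (x : (_ : List ℕ) × List ℕ) _ => x.1 ++ x.2)
  · rintro ⟨p, c⟩ hx
    rw [Finset.mem_sigma, mem_PreF, mem_W12] at hx
    obtain ⟨⟨h1, h2⟩, h3, h4⟩ := hx
    simp only at h1 h2 h3 h4 ⊢
    unfold KWs
    rw [Finset.mem_filter, mem_KW]
    obtain ⟨k1, k2⟩ := kunz_append h1 h3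
    refine ⟨⟨k1, ?_⟩, k2⟩
    rw [List.sum_append, h4]; omega
  · rintro ⟨p, c⟩ hx ⟨p', c'⟩ hx' h
    rw [Finset.mem_sigma, mem_PreF, mem_W12] at hx hx'
    simp only at hx hx' h
    obtain ⟨e1, e2⟩ := split_unique hx.1.1 hx'.1.1 hx.2.1 hx'.2.1 h
    rw [e1, e2]
  · intro l hl
    unfold KWs at hl
    rw [Finset.mem_filter, mem_KW] at hl
    obtain ⟨⟨h1, h2⟩, h3⟩ := hl
    obtain ⟨p, c, g1, g2, rfl⟩ := exists_split h1 h3
    rw [List.sum_append] at h2
    refine ⟨⟨p, c⟩, ?_, rfl⟩
    rw [Finset.mem_sigma, mem_PreF, mem_W12]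
    exact ⟨⟨g1, by simp only; omega⟩, g2, by simp only; omega⟩
  · rintro ⟨p, c⟩ _
    rfl

/-- The words that are too deep are negligible. -/
theorem deep_tendsto : Tendsto (fun g : ℕ => ((KWd g).card : ℝ) * ps ^ g) atTop (𝓝 0) := by
  classical
  have h0 := ps_pos
  obtain ⟨C, hC⟩ := deep_bound
  have hs : Summable (fun g : ℕ => ((KWd g).card : ℝ) * ps ^ g) := by
    apply summable_of_sum_le (c := C)
    · intro g; simp only [Pi.zero_apply]; positivity
    · intro u
      have h1 : ∑ g ∈ u, ((KWd g).card : ℝ) * ps ^ g = ∑ l ∈ u.biUnion KWd, ps ^ l.sum := by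
        rw [Finset.sum_biUnion]
        · apply Finset.sum_congr rfl
          intro g _
          rw [← nsmul_eq_mul, ← Finset.sum_const]
          apply Finset.sum_congr rfl
          intro l hl
          unfold KWd at hl
          rw [Finset.mem_filter, mem_KW] at hl
          rw [hl.1.2]
        · intro g _ g' _ hne
          rw [Function.onFun, Finset.disjoint_left]
          intro l hl hl'
          unfold KWd at hl hl'
          rw [Finset.mem_filter, mem_KW] at hl hl'
          exact hne (hl.1.2.symm.trans hl'.1.2)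
      rw [h1]
      apply hC
      intro l hl
      rw [Finset.mem_biUnion] at hl
      obtain ⟨g, _, hl⟩ := hl
      unfold KWd at hl
      rw [Finset.mem_filter, mem_KW] at hl
      obtain ⟨⟨h2, _⟩, h3⟩ := hl
      unfold Shallow at h3
      push Not at h3
      obtain ⟨i, hi, h4⟩ := h3
      exact ⟨h2, i, hi, h4⟩
  exact hs.tendsto_atTop_zero

open Classical in
/-- The signed sum over the shallow words is negligible. -/
theorem shallow_tendsto :
    Tendsto (fun g : ℕ => ((∑ l ∈ KWs g, (-1 : ℤ) ^ ty l : ℤ) : ℝ) * ps ^ g) atTop (𝓝 0) := by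
  have h0 := ps_pos
  set F : ℕ → List ℕ → ℝ := fun g p => if Pre p ∧ p.sum ≤ g then
    ((∑ c ∈ W12 (g - p.sum), (-1 : ℤ) ^ ty (p ++ c) : ℤ) : ℝ) * ps ^ g else 0 with hF
  set bound : List ℕ → ℝ := fun p => if Pre p then ps ^ p.sum else 0 with hbound
  have hbs : Summable bound := by
    obtain ⟨C, hC⟩ := pre_bound
    apply summable_of_sum_le (c := C)
    · intro p
      simp only [hbound, Pi.zero_apply]
      split_ifs <;> positivity
    · intro u
      simp only [hbound]
      rw [← Finset.sum_filter]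
      apply hC
      intro l hl
      exact (Finset.mem_filter.mp hl).2
  have hle : ∀ g p, ‖F g p‖ ≤ bound p := by
    intro g p
    simp only [hF, hbound]
    by_cases h : Pre p ∧ p.sum ≤ g
    · rw [if_pos h, if_pos h.1, Real.norm_eq_abs, abs_mul, abs_of_pos (pow_pos h0 g)]
      have h1 : |((∑ c ∈ W12 (g - p.sum), (-1 : ℤ) ^ ty (p ++ c) : ℤ) : ℝ)| ≤
          ((W12 (g - p.sum)).card : ℝ) := by
        rw [← Int.cast_abs]
        have : |∑ c ∈ W12 (g - p.sum), (-1 : ℤ) ^ ty (p ++ c)| ≤ ((W12 (g - p.sum)).card : ℤ) := by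
          refine (Finset.abs_sum_le_sum_abs _ _).trans ?_
          simp only [abs_sign, Finset.sum_const, nsmul_eq_mul, mul_one]
          exact le_rfl
        exact_mod_cast this
      have h2 := card_W12_le (g - p.sum)
      have h3 : ps ^ g = ps ^ p.sum * ps ^ (g - p.sum) := by
        rw [← pow_add]; congr 1; omega
      rw [h3]
      calc _ ≤ ((W12 (g - p.sum)).card : ℝ) * (ps ^ p.sum * ps ^ (g - p.sum)) :=
            mul_le_mul_of_nonneg_right h1 (by positivity)
        _ = ps ^ p.sum * (((W12 (g - p.sum)).card : ℝ) * ps ^ (g - p.sum)) := by ring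
        _ ≤ ps ^ p.sum * 1 := mul_le_mul_of_nonneg_left h2 (by positivity)
        _ = ps ^ p.sum := mul_one _
    · rw [if_neg h, norm_zero]
      split_ifs <;> positivity
  have hpt : ∀ p, Tendsto (fun g => F g p) atTop (𝓝 0) := by
    intro p
    by_cases hp : Pre p
    · have h1 := signed_tendsto hp
      have h2 : Tendsto (fun g : ℕ => g - p.sum) atTop atTop :=
        tendsto_sub_atTop_nat p.sum
      have h3 := (h1.comp h2).const_mul (ps ^ p.sum)
      rw [mul_zero] at h3
      apply h3.congr'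
      filter_upwards [eventually_ge_atTop p.sum] with g hg
      simp only [hF, Function.comp]
      rw [if_pos ⟨hp, hg⟩]
      have h3 : ps ^ g = ps ^ p.sum * ps ^ (g - p.sum) := by
        rw [← pow_add]; congr 1; omega
      rw [h3]; ring
    · have : (fun g => F g p) = fun _ => 0 := by
        funext g
        simp only [hF]
        rw [if_neg (fun h => hp h.1)]
      rw [this]
      exact tendsto_const_nhds
  have hT := tendsto_tsum_of_dominated_convergence hbs hpt
    (Eventually.of_forall (fun g => hle g))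
  rw [tsum_zero] at hT
  apply hT.congr
  intro g
  rw [tsum_eq_sum (s := PreF g)]
  · rw [sum_KWs]
    push_cast
    rw [Finset.sum_mul]
    apply Finset.sum_congr rfl
    intro p hp
    rw [mem_PreF] at hp
    simp only [hF]
    rw [if_pos hp]
    push_cast
    rfl
  · intro p hp
    rw [mem_PreF] at hp
    simp only [hF]
    rw [if_neg hp]

theorem card_KW_ge (g : ℕ) : ps ≤ ((KW g).card : ℝ) * ps ^ g := by
  refine (card_W12_ge g).trans ?_
  apply mul_le_mul_of_nonneg_right _ (pow_nonneg ps_pos.le g)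
  have : (W12 g).card ≤ (KW g).card := by
    apply Finset.card_le_card
    intro c hc
    rw [mem_W12] at hc
    rw [mem_KW]
    have := (kunz_append pre_nil hc.1).1
    rw [List.nil_append] at this
    exact ⟨this, hc.2⟩
  exact_mod_cast this

/-- Equidistribution of the parity for Kunz words. -/
theorem ratio_tendsto : Tendsto (fun g : ℕ =>
    (((KW g).filter (fun l => Odd (ty l))).card : ℝ) / ((KW g).card : ℝ)) atTop (𝓝 (1 / 2)) := by
  classical
  have h0 := ps_pos
  set D : ℕ → ℝ := fun g => ((∑ l ∈ KW g, (-1 : ℤ) ^ ty l : ℤ) : ℝ) with hD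
  have hD0 : Tendsto (fun g => D g * ps ^ g) atTop (𝓝 0) := by
    have h1 := shallow_tendsto
    have h2 := deep_tendsto
    have h3 : ∀ g, |D g * ps ^ g - ((∑ l ∈ KWs g, (-1 : ℤ) ^ ty l : ℤ) : ℝ) * ps ^ g| ≤
        ((KWd g).card : ℝ) * ps ^ g := by
      intro g
      have e1 : ∑ l ∈ KW g, (-1 : ℤ) ^ ty l = ∑ l ∈ KWs g, (-1 : ℤ) ^ ty l +
          ∑ l ∈ KWd g, (-1 : ℤ) ^ ty l := by
        unfold KWs KWd
        rw [Finset.sum_filter_add_sum_filter_not]
      have e2 : |∑ l ∈ KWd g, (-1 : ℤ) ^ ty l| ≤ ((KWd g).card : ℤ) := by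
        refine (Finset.abs_sum_le_sum_abs _ _).trans ?_
        simp only [abs_sign, Finset.sum_const, nsmul_eq_mul, mul_one]
        exact le_rfl
      have e3 : D g * ps ^ g - ((∑ l ∈ KWs g, (-1 : ℤ) ^ ty l : ℤ) : ℝ) * ps ^ g =
          ((∑ l ∈ KWd g, (-1 : ℤ) ^ ty l : ℤ) : ℝ) * ps ^ g := by
        simp only [hD]
        rw [e1]
        push_cast
        ring
      rw [e3, abs_mul, abs_of_pos (pow_pos h0 g)]
      apply mul_le_mul_of_nonneg_right _ (by positivity)
      rw [← Int.cast_abs]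
      exact_mod_cast e2
    have h4 : Tendsto (fun g => D g * ps ^ g -
        ((∑ l ∈ KWs g, (-1 : ℤ) ^ ty l : ℤ) : ℝ) * ps ^ g) atTop (𝓝 0) :=
      squeeze_zero_norm h3 h2
    have h5 := h4.add h1
    simpa using h5
  have hR : Tendsto (fun g => D g / ((KW g).card : ℝ)) atTop (𝓝 0) := by
    have hb : ∀ g, ‖D g / ((KW g).card : ℝ)‖ ≤ |D g * ps ^ g| / ps := by
      intro g
      have h1 := card_KW_ge g
      have h2 : 0 < ((KW g).card : ℝ) := by
        by_contra hc
        push Not at hc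
        have : ((KW g).card : ℝ) * ps ^ g ≤ 0 :=
          mul_nonpos_of_nonpos_of_nonneg hc (by positivity)
        linarith
      rw [Real.norm_eq_abs, abs_div, abs_of_pos h2, abs_mul, abs_of_pos (pow_pos h0 g),
        div_le_div_iff₀ h2 h0]
      calc |D g| * ps ≤ |D g| * (((KW g).card : ℝ) * ps ^ g) :=
            mul_le_mul_of_nonneg_left h1 (abs_nonneg _)
        _ = |D g| * ps ^ g * ((KW g).card : ℝ) := by ring
    apply squeeze_zero_norm hb
    have h1 := (hD0.abs).div_const ps
    simpa using h1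
  have hfin : ∀ g, (((KW g).filter (fun l => Odd (ty l))).card : ℝ) / ((KW g).card : ℝ) =
      1 / 2 - (D g / ((KW g).card : ℝ)) / 2 := by
    intro g
    have h1 := card_KW_ge g
    have h2 : 0 < ((KW g).card : ℝ) := by
      by_contra hc
      push Not at hc
      have : ((KW g).card : ℝ) * ps ^ g ≤ 0 :=
        mul_nonpos_of_nonpos_of_nonneg hc (by positivity)
      linarith
    have h3 : ∑ l ∈ KW g, (-1 : ℤ) ^ ty l =
        ((KW g).card : ℤ) - 2 * (((KW g).filter (fun l => Odd (ty l))).card : ℤ) := by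
      have e1 : ∀ l ∈ KW g, (-1 : ℤ) ^ ty l = 1 - 2 * (if Odd (ty l) then 1 else 0) := by
        intro l _
        by_cases h : Odd (ty l)
        · rw [if_pos h, h.neg_one_pow]; norm_num
        · rw [if_neg h, (Nat.not_odd_iff_even.mp h).neg_one_pow]; norm_num
      rw [Finset.sum_congr rfl e1, Finset.sum_sub_distrib, ← Finset.mul_sum, Finset.sum_ite,
        Finset.sum_const_zero, add_zero]
      simp
    have h4 : D g = ((KW g).card : ℝ) - 2 * (((KW g).filter (fun l => Odd (ty l))).card : ℝ) := by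
      simp only [hD]
      rw [h3]; push_cast; ring
    rw [h4]
    field_simp
    ring
  have h6 := (tendsto_const_nhds (x := (1 / 2 : ℝ))).sub (hR.div_const 2)
  simp only [zero_div, sub_zero] at h6
  exact h6.congr (fun g => (hfin g).symm)

end Pool.Agent.H32.NS
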