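import Pool.Agent.H32.NS.Chains

set_option autoImplicit false

namespace Pool.Agent.H32.NS

theorem num3 : Num 3 := by
  apply num_of_rat <;> decide +kernel

theorem num4 : Num 4 := by
  apply num_of_rat <;> decide +kernel

theorem num5 : Num 5 := by
  apply num_of_rat <;> decide +kernel

theorem num6 : Num 6 := by
  apply num_of_rat <;> decide +kernel

/-- Geometric tail bound. -/
theorem geom_Ico (a b : ℕ) : ∑ l ∈ Finset.Ico a b, ps ^ l ≤ ps ^ a / ps ^ 2 := by
  have h0 := ps_pos
  have h1 : ∀ n, ∑ l ∈ Finset.Ico a (a + n), ps ^ l = (ps ^ a - ps ^ (a + n)) / ps ^ 2 := by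
    intro n
    induction n with
    | zero => simp
    | succ n ih =>
      rw [← add_assoc, Finset.sum_Ico_succ_top (by omega), ih, eq_div_iff (by positivity), add_mul,
        div_mul_cancel₀ _ (by positivity), ps_sq]
      ring
  rcases le_total a b with h | h
  · obtain ⟨n, rfl⟩ := Nat.exists_eq_add_of_le h
    rw [h1]
    apply div_le_div_of_nonneg_right _ (by positivity)
    have : 0 < ps ^ (a + n) := by positivity
    linarith
  · rw [Finset.Ico_eq_empty (by omega), Finset.sum_empty]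
    positivity

theorem sum_St_le (q : ℕ) (hq : 2 ≤ q) : ∑ s ∈ St q, wt s ≤ q * ps ^ (q - 2) := by
  have h0 := ps_pos
  unfold St
  rw [Finset.sum_filter, Finset.sum_product]
  have h1 : ∀ k ∈ Finset.Icc 1 q, (∑ l ∈ Finset.Icc 1 q,
      if q ≤ (k, l).1 + (k, l).2 then wt (k, l) else 0) ≤ ps ^ (q - 2) := by
    intro k hk
    rw [Finset.mem_Icc] at hk
    calc (∑ l ∈ Finset.Icc 1 q, if q ≤ (k, l).1 + (k, l).2 then wt (k, l) else 0)
        = ∑ l ∈ (Finset.Icc 1 q).filter (fun l => q ≤ k + l), ps ^ k * ps ^ l := by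
          rw [Finset.sum_filter]
          apply Finset.sum_congr rfl
          intro l _
          simp only [wt, pow_add]
      _ ≤ ∑ l ∈ Finset.Ico (q - k) (q + 1), ps ^ k * ps ^ l := by
          apply Finset.sum_le_sum_of_subset_of_nonneg
          · intro l hl
            rw [Finset.mem_filter, Finset.mem_Icc] at hl
            rw [Finset.mem_Ico]; omega
          · intro l _ _; positivity
      _ = ps ^ k * ∑ l ∈ Finset.Ico (q - k) (q + 1), ps ^ l := by rw [Finset.mul_sum]
      _ ≤ ps ^ k * (ps ^ (q - k) / ps ^ 2) := mul_le_mul_of_nonneg_left (geom_Ico _ _) (by positivity)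
      _ = ps ^ (q - 2) := by
          rw [← mul_div_assoc, ← pow_add, div_eq_iff (by positivity), ← pow_add]
          congr 1; omega
  calc _ ≤ ∑ k ∈ Finset.Icc 1 q, ps ^ (q - 2) := Finset.sum_le_sum h1
    _ = q * ps ^ (q - 2) := by simp

theorem q_ps (q : ℕ) (hq : 7 ≤ q) : (q : ℝ) * ps ^ (q - 2) ≤ 7 / 10 := by
  obtain ⟨n, rfl⟩ := Nat.exists_eq_add_of_le hq
  have h0 := ps_pos
  have h1 := ps_lt
  induction n with
  | zero =>
    have h2 : ps ^ 5 ≤ (61804 / 100000 : ℝ) ^ 5 := pow_le_pow_left₀ h0.le h1.le 5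
    norm_num at h2 ⊢
    linarith
  | succ n ih =>
    have ih := ih (by omega)
    have e1 : 7 + (n + 1) - 2 = (7 + n - 2) + 1 := by omega
    rw [e1, pow_succ]
    have h3 : 0 < ps ^ (7 + n - 2) := by positivity
    have h4 : ((7 + (n + 1) : ℕ) : ℝ) * ps ≤ ((7 + n : ℕ) : ℝ) := by
      push_cast
      nlinarith
    calc ((7 + (n + 1) : ℕ) : ℝ) * (ps ^ (7 + n - 2) * ps)
        = (((7 + (n + 1) : ℕ) : ℝ) * ps) * ps ^ (7 + n - 2) := by ring
      _ ≤ ((7 + n : ℕ) : ℝ) * ps ^ (7 + n - 2) := mul_le_mul_of_nonneg_right h4 h3.le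
      _ ≤ 7 / 10 := ih

theorem num_large (q : ℕ) (hq : 7 ≤ q) : Num q := by
  have hP : ∑ s ∈ St q, wt s ≤ 7 / 10 := (sum_St_le q (by omega)).trans (q_ps q hq)
  have hF : ∀ t s, F q t s ≤ (7 / 10 : ℝ) ^ t := by
    intro t
    induction t with
    | zero => intro s; simp [F]
    | succ t ih =>
      intro s
      simp only [F]
      calc ∑ s' ∈ (St q).filter (fun s' => Tr s s'), wt s' * F q t s'
          ≤ ∑ s' ∈ (St q).filter (fun s' => Tr s s'), wt s' * (7 / 10 : ℝ) ^ t := by
            apply Finset.sum_le_sum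
            intro s' _
            exact mul_le_mul_of_nonneg_left (ih s') (wt_pos s').le
        _ ≤ ∑ s' ∈ St q, wt s' * (7 / 10 : ℝ) ^ t := by
            apply Finset.sum_le_sum_of_subset_of_nonneg (Finset.filter_subset _ _)
            intro s' _ _
            exact mul_nonneg (wt_pos s').le (by positivity)
        _ = (∑ s' ∈ St q, wt s') * (7 / 10 : ℝ) ^ t := by rw [Finset.sum_mul]
        _ ≤ (7 / 10) * (7 / 10 : ℝ) ^ t := mul_le_mul_of_nonneg_right hP (by positivity)
        _ = (7 / 10 : ℝ) ^ (t + 1) := by ring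
  have hI : ∀ (I : Finset (ℕ × ℕ)), I ⊆ St q → ∀ t,
      ∑ s ∈ I, wt s * F q t s ≤ (7 / 10) * (7 / 10 : ℝ) ^ t := by
    intro I hI t
    calc ∑ s ∈ I, wt s * F q t s ≤ ∑ s ∈ I, wt s * (7 / 10 : ℝ) ^ t := by
          apply Finset.sum_le_sum
          intro s' _
          exact mul_le_mul_of_nonneg_left (hF t s') (wt_pos s').le
      _ ≤ ∑ s ∈ St q, wt s * (7 / 10 : ℝ) ^ t := by
          apply Finset.sum_le_sum_of_subset_of_nonneg hI
          intro s' _ _
          exact mul_nonneg (wt_pos s').le (by positivity)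
      _ = (∑ s' ∈ St q, wt s') * (7 / 10 : ℝ) ^ t := by rw [Finset.sum_mul]
      _ ≤ (7 / 10) * (7 / 10 : ℝ) ^ t := mul_le_mul_of_nonneg_right hP (by positivity)
  have hpow : ∀ t : ℕ, (7 / 10 : ℝ) ^ t ≤ (97 / 100 : ℝ) ^ t := fun t =>
    pow_le_pow_left₀ (by norm_num) (by norm_num) t
  refine ⟨?_, ?_, ?_⟩
  · intro t
    have h1 := hI (St q) (Finset.Subset.refl _) t
    have h2 := hpow t
    have h3 : (0 : ℝ) < (7 / 10 : ℝ) ^ t := by positivity
    linarith
  · intro t
    have h1 := hI (Sts q) (Finset.filter_subset _ _) t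
    have h2 := hpow t
    have h3 : (0 : ℝ) < (7 / 10 : ℝ) ^ t := by positivity
    linarith
  · have h1 := hI (Stb q) (Finset.filter_subset _ _) 0
    simp only [F, mul_one, pow_zero] at h1
    norm_num
    linarith

theorem num_all (q : ℕ) (hq : 3 ≤ q) : Num q := by
  rcases Nat.lt_or_ge q 7 with h | h
  · interval_cases q
    · exact num3
    · exact num4
    · exact num5
    · exact num6
  · exact num_large q h

end Pool.Agent.H32.NS
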