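import Pool.Agent.H32.NS.Lim

set_option autoImplicit false

namespace Pool.Agent.H32.NS

/-- The set of natural numbers described by a word. -/
def sg (l : List ℕ) : Set ℕ :=
  {x | x % (l.length + 1) = 0 ∨ l.getD (x % (l.length + 1) - 1) 0 ≤ x / (l.length + 1)}

theorem mem_sg {l : List ℕ} {r q : ℕ} (hr : r < l.length + 1) :
    r + q * (l.length + 1) ∈ sg l ↔ r = 0 ∨ l.getD (r - 1) 0 ≤ q := by
  have h1 : (r + q * (l.length + 1)) % (l.length + 1) = r := by
    rw [Nat.add_mul_mod_self_right, Nat.mod_eq_of_lt hr]
  have h2 : (r + q * (l.length + 1)) / (l.length + 1) = q := by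
    rw [Nat.add_mul_div_right _ _ (Nat.succ_pos _), Nat.div_eq_of_lt hr, zero_add]
  unfold sg
  rw [Set.mem_ofPred_eq, h1, h2]

theorem exists_rep (m x : ℕ) (hm : 0 < m) : ∃ r q, r < m ∧ x = r + q * m :=
  ⟨x % m, x / m, Nat.mod_lt _ hm, (Nat.mod_add_div' x m).symm⟩

theorem sg_zero (l : List ℕ) : 0 ∈ sg l := by
  have := (mem_sg (l := l) (r := 0) (q := 0) (Nat.succ_pos _)).mpr (Or.inl rfl)
  simpa using this

theorem sg_add {l : List ℕ} (hl : Kunz l) {a b : ℕ} (ha : a ∈ sg l) (hb : b ∈ sg l) :
    a + b ∈ sg l := by
  set n := l.length with hn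
  obtain ⟨r, q, hr, rfl⟩ := exists_rep (n + 1) a (Nat.succ_pos _)
  obtain ⟨r', q', hr', rfl⟩ := exists_rep (n + 1) b (Nat.succ_pos _)
  rw [mem_sg hr] at ha
  rw [mem_sg hr'] at hb
  rcases Nat.lt_or_ge (r + r') (n + 1) with h | h
  · have e : r + q * (n + 1) + (r' + q' * (n + 1)) = (r + r') + (q + q') * (n + 1) := by ring
    rw [e, mem_sg h]
    rcases ha with ha | ha
    · subst ha
      rcases hb with hb | hb
      · left; omega
      · right; rw [zero_add]; omega
    · rcases hb with hb | hb
      · subst hb; right; rw [add_zero]; omega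
      · by_cases h0 : r = 0
        · subst h0; right; rw [zero_add]; omega
        · by_cases h0' : r' = 0
          · subst h0'; right; rw [add_zero]; omega
          · right
            have h1 := hl.sub (r - 1) (r' - 1) (by omega)
            have e1 : r - 1 + (r' - 1) + 1 = r + r' - 1 := by omega
            rw [e1] at h1
            omega
  · have e : r + q * (n + 1) + (r' + q' * (n + 1)) =
        (r + r' - (n + 1)) + (q + q' + 1) * (n + 1) := by
      have : r + r' = (r + r' - (n + 1)) + (n + 1) := by omega
      calc r + q * (n + 1) + (r' + q' * (n + 1)) = (r + r') + (q + q') * (n + 1) := by ring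
        _ = (r + r' - (n + 1)) + (n + 1) + (q + q') * (n + 1) := by rw [← this]
        _ = _ := by ring
    rw [e, mem_sg (by omega)]
    rcases ha with ha | ha
    · omega
    · rcases hb with hb | hb
      · omega
      · by_cases h0 : r + r' = n + 1
        · left; omega
        · right
          have h1 := hl.wrap (r - 1) (r' - 1) (by omega) (by omega) (by omega)
          have e1 : r - 1 + (r' - 1) - l.length = r + r' - (n + 1) - 1 := by omega
          rw [e1] at h1
          omega

/-- The gaps. -/
theorem compl_sg (l : List ℕ) : (sg l)ᶜ =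
    ((Finset.univ : Finset (Fin l.length)).sigma (fun i => Finset.range (l.getD i 0))).image
      (fun x => (x.1 : ℕ) + 1 + x.2 * (l.length + 1)) := by
  ext x
  rw [Set.mem_compl_iff]
  obtain ⟨r, q, hr, rfl⟩ := exists_rep (l.length + 1) x (Nat.succ_pos _)
  rw [mem_sg hr, Finset.mem_coe, Finset.mem_image]
  push Not
  constructor
  · rintro ⟨h1, h2⟩
    refine ⟨⟨⟨r - 1, by omega⟩, q⟩, ?_, ?_⟩
    · rw [Finset.mem_sigma, Finset.mem_range]
      exact ⟨Finset.mem_univ _, h2⟩
    · show r - 1 + 1 + q * (l.length + 1) = r + q * (l.length + 1)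
      omega
  · rintro ⟨⟨i, t⟩, h1, h2⟩
    rw [Finset.mem_sigma, Finset.mem_range] at h1
    simp only at h1 h2
    have hi := i.2
    have e1 : r = (i : ℕ) + 1 := by
      have := congrArg (· % (l.length + 1)) h2
      simp only [Nat.add_mul_mod_self_right] at this
      rw [Nat.mod_eq_of_lt hr, Nat.mod_eq_of_lt (by omega)] at this
      exact this.symm
    have e2 : q = t := by
      rw [e1] at h2
      have := Nat.add_left_cancel h2
      exact (Nat.eq_of_mul_eq_mul_right (Nat.succ_pos _) this).symm
    refine ⟨by omega, ?_⟩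
    rw [e1, e2, Nat.add_sub_cancel]
    exact h1.2

theorem compl_finite (l : List ℕ) : ((sg l)ᶜ).Finite := by
  rw [compl_sg]; exact Finset.finite_toSet _

theorem ncard_compl (l : List ℕ) : ((sg l)ᶜ).ncard = l.sum := by
  rw [compl_sg, Set.ncard_coe_finset, Finset.card_image_of_injOn]
  · rw [Finset.card_sigma, sum_eq_range, Finset.sum_range]
    simp
  · rintro ⟨i, t⟩ _ ⟨i', t'⟩ _ h
    simp only at h
    have hi := i.2
    have hi' := i'.2
    have e1 : (i : ℕ) = i' := by
      have := congrArg (· % (l.length + 1)) h
      simp only [Nat.add_mul_mod_self_right] at this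
      rw [Nat.mod_eq_of_lt (by omega), Nat.mod_eq_of_lt (by omega)] at this
      omega
    have e2 : i = i' := Fin.ext e1
    subst e2
    have := Nat.add_left_cancel h
    have e3 := Nat.eq_of_mul_eq_mul_right (Nat.succ_pos _) this
    rw [e3]

theorem not_mem_small {l : List ℕ} (hl : Kunz l) {x : ℕ} (h0 : 0 < x) (hx : x < l.length + 1) :
    x ∉ sg l := by
  have := mem_sg (l := l) (r := x) (q := 0) hx
  rw [zero_mul, add_zero] at this
  rw [this]
  push Not
  have h1 := hl.pos (x - 1) (by omega)
  exact ⟨by omega, by omega⟩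

theorem mem_mul (l : List ℕ) (q : ℕ) : q * (l.length + 1) ∈ sg l := by
  have := (mem_sg (l := l) (r := 0) (q := q) (Nat.succ_pos _)).mpr (Or.inl rfl)
  rwa [zero_add] at this

theorem sg_injOn {l l' : List ℕ} (hl : Kunz l) (hl' : Kunz l') (h : sg l = sg l') : l = l' := by
  have key : ∀ {l l' : List ℕ}, Kunz l' → sg l = sg l' → ¬ l.length < l'.length := by
    intro l l' hl' h hlt
    have h1 := mem_mul l 1
    rw [one_mul, h] at h1
    exact not_mem_small hl' (Nat.succ_pos _) (by omega) h1
  have hlen : l.length = l'.length := by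
    have h1 := key hl' h
    have h2 := key hl h.symm
    omega
  apply ext_getD hlen
  intro i hi
  apply le_antisymm
  · have h1 := (mem_sg (l := l') (r := i + 1) (q := l'.getD i 0) (by omega)).mpr
      (Or.inr (by rw [Nat.add_sub_cancel]))
    rw [← h, ← hlen, mem_sg (by omega)] at h1
    rcases h1 with h1 | h1
    · omega
    · rwa [Nat.add_sub_cancel] at h1
  · have h1 := (mem_sg (l := l) (r := i + 1) (q := l.getD i 0) (by omega)).mpr
      (Or.inr (by rw [Nat.add_sub_cancel]))
    rw [h, hlen, mem_sg (by omega)] at h1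
    rcases h1 with h1 | h1
    · omega
    · rwa [Nat.add_sub_cancel] at h1

/-- Every numerical semigroup comes from a Kunz word. -/
theorem exists_word {S : Set ℕ} (h0 : 0 ∈ S) (hadd : ∀ a ∈ S, ∀ b ∈ S, a + b ∈ S)
    (hfin : Sᶜ.Finite) : ∃ l : List ℕ, Kunz l ∧ sg l = S := by
  classical
  have hunb : ∀ r m : ℕ, 0 < m → ∃ q, r + q * m ∈ S := by
    intro r m hm
    by_contra hcon
    push Not at hcon
    have hinj : Function.Injective (fun q : ℕ => r + q * m) := by
      intro a b hab
      simp only at hab
      exact Nat.eq_of_mul_eq_mul_right hm (Nat.add_left_cancel hab)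
    exact Set.infinite_of_injective_forall_mem hinj (fun q => hcon q) hfin
  have hex : ∃ m, 0 < m ∧ m ∈ S := by
    obtain ⟨q, hq⟩ := hunb 1 1 one_pos
    exact ⟨1 + q * 1, by omega, hq⟩
  set m := Nat.find hex with hm
  obtain ⟨hm0, hmS⟩ := Nat.find_spec hex
  rw [← hm] at hm0 hmS
  have hmin : ∀ x, 0 < x → x < m → x ∉ S := by
    intro x hx hxm hxS
    exact Nat.find_min hex hxm ⟨hx, hxS⟩
  have hmul : ∀ q, q * m ∈ S := by
    intro q
    induction q with
    | zero => rw [zero_mul]; exact h0
    | succ q ih => rw [Nat.succ_mul]; exact hadd _ ih _ hmS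
  set k : ℕ → ℕ := fun i => Nat.find (hunb (i + 1) m hm0) with hk
  have hkS : ∀ i, (i + 1) + k i * m ∈ S := fun i => Nat.find_spec (hunb (i + 1) m hm0)
  have hkmin : ∀ i q, (i + 1) + q * m ∈ S → k i ≤ q := fun i q hq => Nat.find_min' _ hq
  have hkup : ∀ i q, k i ≤ q → (i + 1) + q * m ∈ S := by
    intro i q hq
    obtain ⟨d, rfl⟩ := Nat.exists_eq_add_of_le hq
    have : (i + 1) + (k i + d) * m = ((i + 1) + k i * m) + d * m := by ring
    rw [this]
    exact hadd _ (hkS i) _ (hmul d)
  set l := (List.range (m - 1)).map k with hl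
  have hlen : l.length = m - 1 := by simp [hl]
  have hlm : l.length + 1 = m := by omega
  have hget : ∀ i, i < m - 1 → l.getD i 0 = k i := by
    intro i hi
    rw [List.getD_eq_getElem _ _ (by rw [hlen]; exact hi)]
    simp [hl]
  refine ⟨l, ⟨?_, ?_, ?_⟩, ?_⟩
  · intro i hi
    rw [hlen] at hi
    rw [hget i hi]
    by_contra hc
    have hk0 : k i = 0 := by omega
    have := hkS i
    rw [hk0, zero_mul, add_zero] at this
    exact hmin (i + 1) (by omega) (by omega) this
  · intro i j hij
    rw [hlen] at hij
    rw [hget _ hij, hget i (by omega), hget j (by omega)]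
    apply hkmin
    have h1 := hadd _ (hkS i) _ (hkS j)
    have e : (i + 1) + k i * m + ((j + 1) + k j * m) = (i + j + 1 + 1) + (k i + k j) * m := by ring
    rwa [e] at h1
  · intro i j hi hj hij
    rw [hlen] at hi hj hij ⊢
    rw [hget _ (by omega), hget i hi, hget j hj]
    apply hkmin
    have h1 := hadd _ (hkS i) _ (hkS j)
    have e : (i + 1) + k i * m + ((j + 1) + k j * m) =
        (i + j - (m - 1) + 1) + (k i + k j + 1) * m := by
      have e1 : i + j + 2 = (i + j - (m - 1) + 1) + m := by omega
      calc (i + 1) + k i * m + ((j + 1) + k j * m) = (i + j + 2) + (k i + k j) * m := by ring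
        _ = (i + j - (m - 1) + 1) + m + (k i + k j) * m := by rw [← e1]
        _ = _ := by ring
    rwa [e] at h1
  · ext x
    obtain ⟨r, q, hr, rfl⟩ := exists_rep (l.length + 1) x (Nat.succ_pos _)
    rw [mem_sg hr]
    rw [hlm] at hr ⊢
    constructor
    · rintro (h | h)
      · rw [h, zero_add]; exact hmul q
      · by_cases hr0 : r = 0
        · rw [hr0, zero_add]; exact hmul q
        · rw [hget (r - 1) (by omega)] at h
          have := hkup (r - 1) q h
          have e : r - 1 + 1 = r := by omega
          rwa [e] at this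
    · intro h
      by_cases hr0 : r = 0
      · exact Or.inl hr0
      · right
        rw [hget (r - 1) (by omega)]
        apply hkmin
        have e : r - 1 + 1 = r := by omega
        rwa [e]

/-- Pseudo-Frobenius numbers (as integers). -/
def PFZ (S : Set ℕ) : Set ℤ :=
  {x : ℤ | (∀ s ∈ S, x ≠ (s : ℤ)) ∧ ∀ s ∈ S, s ≠ 0 → ∃ s' ∈ S, x + (s : ℤ) = (s' : ℤ)}

theorem PFZ_eq {l : List ℕ} (hl : Kunz l) (hne : l ≠ []) : PFZ (sg l) =
    (((Finset.range l.length).filter (Cond l)).image
      (fun i => ((i + 1 + (l.getD i 0 - 1) * (l.length + 1) : ℕ) : ℤ)) : Finset ℤ) := by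
  have hpos : 0 < l.length := List.length_pos_of_ne_nil hne
  set m := l.length + 1 with hm
  ext x
  rw [Finset.mem_coe, Finset.mem_image]
  constructor
  · rintro ⟨h1, h2⟩
    -- x is a natural number
    have hx0 : 0 ≤ x := by
      by_contra hneg
      push Not at hneg
      -- largest gap
      obtain ⟨F, hF1, hF2⟩ : ∃ F, F ∉ sg l ∧ ∀ y, F < y → y ∈ sg l := by
        have hne' : (compl_finite l).toFinset.Nonempty := by
          refine ⟨1, ?_⟩
          rw [Set.Finite.mem_toFinset]
          exact not_mem_small hl one_pos (by omega)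
        refine ⟨(compl_finite l).toFinset.max' hne', ?_, ?_⟩
        · have := Finset.max'_mem _ hne'
          rw [Set.Finite.mem_toFinset] at this
          exact this
        · intro y hy
          by_contra hc
          have := Finset.le_max' (compl_finite l).toFinset y (by
            rw [Set.Finite.mem_toFinset]; exact hc)
          omega
      obtain ⟨d, hd⟩ : ∃ d : ℕ, x = -(d : ℤ) := ⟨x.natAbs, by omega⟩
      have hd0 : 0 < d := by omega
      obtain ⟨s', hs', h3⟩ := h2 (F + d) (hF2 _ (by omega)) (by omega)
      have : s' = F := by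
        rw [hd] at h3; push_cast at h3; omega
      rw [this] at hs'
      exact hF1 hs'
    obtain ⟨y, rfl⟩ := Int.eq_ofNat_of_zero_le hx0
    have hy : y ∉ sg l := fun h => h1 y h rfl
    have h2' : ∀ s ∈ sg l, s ≠ 0 → y + s ∈ sg l := by
      intro s hs hs0
      obtain ⟨s', hs', h3⟩ := h2 s hs hs0
      have : s' = y + s := by
        have : (s' : ℤ) = ((y + s : ℕ) : ℤ) := by rw [← h3]; push_cast; rfl
        exact_mod_cast this
      rwa [← this]
    obtain ⟨r, q, hr, rfl⟩ := exists_rep m y (Nat.succ_pos _)
    rw [hm, mem_sg hr] at hy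
    push Not at hy
    obtain ⟨hr0, hq⟩ := hy
    have h3 := h2' (1 * m) (mem_mul l 1) (by omega)
    have e1 : r + q * m + 1 * m = r + (q + 1) * m := by ring
    rw [e1, hm, mem_sg hr] at h3
    have hqe : q = l.getD (r - 1) 0 - 1 := by
      rcases h3 with h3 | h3 <;> omega
    refine ⟨r - 1, ?_, ?_⟩
    · rw [Finset.mem_filter, Finset.mem_range]
      refine ⟨by omega, ?_⟩
      intro j hj
      have hw : (j + 1) + l.getD j 0 * m ∈ sg l := by
        rw [hm, mem_sg (by omega)]
        right; rw [Nat.add_sub_cancel]
      have h4 := h2' _ hw (by omega)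
      constructor
      · intro hij
        have e2 : r + q * m + ((j + 1) + l.getD j 0 * m) =
            (r - 1 + j + 1 + 1) + (q + l.getD j 0) * m := by
          have : r = r - 1 + 1 := by omega
          calc r + q * m + ((j + 1) + l.getD j 0 * m) = (r + j + 1) + (q + l.getD j 0) * m := by ring
            _ = _ := by congr 1; omega
        rw [e2, hm, mem_sg (by omega), Nat.add_sub_cancel] at h4
        rcases h4 with h4 | h4 <;> omega
      · intro hij
        have e2 : r + q * m + ((j + 1) + l.getD j 0 * m) =
            (r + j + 1 - m) + (q + l.getD j 0 + 1) * m := by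
          have : r + j + 1 = (r + j + 1 - m) + m := by omega
          calc r + q * m + ((j + 1) + l.getD j 0 * m) = (r + j + 1) + (q + l.getD j 0) * m := by ring
            _ = (r + j + 1 - m) + m + (q + l.getD j 0) * m := by rw [← this]
            _ = _ := by ring
        rw [e2, hm, mem_sg (by omega)] at h4
        have e3 : r + j + 1 - (l.length + 1) - 1 = r - 1 + j - l.length := by omega
        rw [e3] at h4
        rcases h4 with h4 | h4
        · -- residue zero: index is l.length - ... ; then r + j + 1 = m
          exfalso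
          omega
        · omega
    · rw [← hqe]
      have : r - 1 + 1 = r := by omega
      rw [this]
  · rintro ⟨i, hi, rfl⟩
    rw [Finset.mem_filter, Finset.mem_range] at hi
    obtain ⟨hi1, hcond⟩ := hi
    have hli := hl.pos i hi1
    have hnot : i + 1 + (l.getD i 0 - 1) * m ∉ sg l := by
      rw [hm, mem_sg (by omega), Nat.add_sub_cancel]
      omega
    have hyes : ∀ s ∈ sg l, s ≠ 0 → i + 1 + (l.getD i 0 - 1) * m + s ∈ sg l := by
      intro s hs hs0
      obtain ⟨r, q, hr, rfl⟩ := exists_rep m s (Nat.succ_pos _)
      rw [hm, mem_sg hr] at hs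
      rcases Nat.eq_zero_or_pos r with hr0 | hr0
      · subst hr0
        have hq0 : 0 < q := by
          rcases Nat.eq_zero_or_pos q with h | h
          · subst h; simp at hs0
          · exact h
        have e : i + 1 + (l.getD i 0 - 1) * m + (0 + q * m) =
            (i + 1) + (l.getD i 0 - 1 + q) * m := by ring
        rw [e, hm, mem_sg (by omega), Nat.add_sub_cancel]
        right; omega
      · have hq : l.getD (r - 1) 0 ≤ q := by
          rcases hs with hs | hs <;> omega
        obtain ⟨c1, c2⟩ := hcond (r - 1) (by omega)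
        rcases Nat.lt_or_ge (i + (r - 1) + 1) l.length with h | h
        · have e : i + 1 + (l.getD i 0 - 1) * m + (r + q * m) =
              (i + (r - 1) + 1 + 1) + (l.getD i 0 - 1 + q) * m := by
            calc i + 1 + (l.getD i 0 - 1) * m + (r + q * m) =
                (i + 1 + r) + (l.getD i 0 - 1 + q) * m := by ring
              _ = _ := by congr 1; omega
          rw [e, hm, mem_sg (by omega), Nat.add_sub_cancel]
          right
          have := c1 h
          omega
        · have e : i + 1 + (l.getD i 0 - 1) * m + (r + q * m) =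
              (i + 1 + r - m) + (l.getD i 0 + q) * m := by
            have e1 : i + 1 + r = (i + 1 + r - m) + m := by omega
            have e2 : l.getD i 0 = l.getD i 0 - 1 + 1 := by omega
            calc i + 1 + (l.getD i 0 - 1) * m + (r + q * m) =
                (i + 1 + r) + (l.getD i 0 - 1 + q) * m := by ring
              _ = (i + 1 + r - m) + m + (l.getD i 0 - 1 + q) * m := by rw [← e1]
              _ = (i + 1 + r - m) + ((l.getD i 0 - 1 + 1) + q) * m := by ring
              _ = _ := by rw [← e2]
          rw [e, hm, mem_sg (by omega)]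
          rcases Nat.eq_zero_or_pos (i + 1 + r - (l.length + 1)) with h5 | h5
          · left; exact h5
          · right
            have h6 := c2 (by omega)
            have e3 : i + 1 + r - (l.length + 1) - 1 = i + (r - 1) - l.length := by omega
            rw [e3]
            omega
    refine ⟨?_, ?_⟩
    · intro s hs h
      have : i + 1 + (l.getD i 0 - 1) * m = s := by exact_mod_cast h
      rw [this] at hnot
      exact hnot hs
    · intro s hs hs0
      refine ⟨_, hyes s hs hs0, ?_⟩
      push_cast
      ring

theorem ncard_PFZ {l : List ℕ} (hl : Kunz l) (hne : l ≠ []) : (PFZ (sg l)).ncard = ty l := by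
  rw [PFZ_eq hl hne, Set.ncard_coe_finset, Finset.card_image_of_injOn]
  · rfl
  · intro i hi j hj h
    have hi' := Finset.mem_filter.mp (Finset.mem_coe.mp hi)
    have hj' := Finset.mem_filter.mp (Finset.mem_coe.mp hj)
    rw [Finset.mem_range] at hi' hj'
    simp only at h
    have h1 : i + 1 + (l.getD i 0 - 1) * (l.length + 1) =
        j + 1 + (l.getD j 0 - 1) * (l.length + 1) := by exact_mod_cast h
    have := congrArg (· % (l.length + 1)) h1
    simp only [Nat.add_mul_mod_self_right] at this
    rw [Nat.mod_eq_of_lt (by omega), Nat.mod_eq_of_lt (by omega)] at this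
    omega

end Pool.Agent.H32.NS
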