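import Pool.Agent.H32.NS.Fam

set_option autoImplicit false

namespace Pool.Agent.H32.NS

noncomputable def nu : ℝ := 9975 / 10000

theorem nu_bound {R n a : ℕ} (h : a ≤ R + n + 2) :
    (99 / 100 : ℝ) ^ (R / 2 + n / 2) ≤ 2 * nu ^ (R + n + a) := by
  have h1 : (99 / 100 : ℝ) ^ (R / 2 + n / 2) ≤ (nu ^ 4) ^ (R / 2 + n / 2) :=
    pow_le_pow_left₀ (by norm_num) (by unfold nu; norm_num) _
  rw [← pow_mul] at h1
  have h2 : nu ^ (4 * (R / 2 + n / 2) + 6) ≤ nu ^ (R + n + a) :=
    pow_le_pow_of_le_one (by unfold nu; norm_num) (by unfold nu; norm_num) (by omega)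
  rw [pow_add] at h2
  have h3 : (1 / 2 : ℝ) ≤ nu ^ 6 := by unfold nu; norm_num
  have h4 : 0 ≤ nu ^ (4 * (R / 2 + n / 2)) := by unfold nu; positivity
  nlinarith

theorem sum_fiber {α I : Type*} [DecidableEq I] (X : Finset α) (ι : α → I) (f : α → ℝ)
    (B : I → ℝ) (hB : Summable B) (hB0 : ∀ i, 0 ≤ B i)
    (h : ∀ i ∈ X.image ι, ∑ l ∈ X.filter (fun l => ι l = i), f l ≤ B i) :
    ∑ l ∈ X, f l ≤ ∑' i, B i := by
  rw [← Finset.sum_fiberwise_of_maps_to (t := X.image ι) (g := ι)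
    (fun x hx => Finset.mem_image_of_mem ι hx)]
  calc _ ≤ ∑ i ∈ X.image ι, B i := Finset.sum_le_sum h
    _ ≤ ∑' i, B i := hB.sum_le_tsum _ (fun i _ => hB0 i)

theorem summable_nu : Summable (fun n : ℕ => nu ^ n) :=
  summable_geometric_of_lt_one (by unfold nu; norm_num) (by unfold nu; norm_num)

theorem summable_ps : Summable (fun n : ℕ => ps ^ n) :=
  summable_geometric_of_lt_one ps_pos.le ps_lt_one

/-- The total weight of the Kunz words with an entry at least four is finite. -/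
theorem deep_bound : ∃ C : ℝ, ∀ X : Finset (List ℕ),
    (∀ l ∈ X, Kunz l ∧ ∃ i < l.length, 4 ≤ l.getD i 0) → ∑ l ∈ X, ps ^ l.sum ≤ C := by
  classical
  have h0 := ps_pos
  have hnu : 0 < nu := by unfold nu; norm_num
  have hlm : ∀ l : List ℕ, ∃ qR : ℕ × ℕ, l ≠ [] → LastMax l qR.1 qR.2 := by
    intro l
    by_cases hl : l = []
    · exact ⟨(0, 0), fun h => absurd hl h⟩
    · obtain ⟨q, R, h⟩ := exists_lastMax l hl
      exact ⟨(q, R), fun _ => h⟩
  choose f hf using hlm
  choose g hg using exists_minOne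
  set ι : List ℕ → ℕ × (ℕ × (ℕ × ℕ)) :=
    fun l => ((f l).1, ((f l).2, (l.length - (f l).2 - 1, g l))) with hι
  set B : ℕ × (ℕ × (ℕ × ℕ)) → ℝ :=
    fun i => 64 * (ps ^ i.1 * (nu ^ i.2.1 * (nu ^ i.2.2.1 * nu ^ i.2.2.2))) with hB
  have hBs : Summable B := by
    have hn0 : (0 : ℕ → ℝ) ≤ fun n => nu ^ n := fun n => by simp only [Pi.zero_apply]; positivity
    have hp0 : (0 : ℕ → ℝ) ≤ fun n => ps ^ n := fun n => by simp only [Pi.zero_apply]; positivity
    have s1 : Summable (fun x : ℕ × ℕ => nu ^ x.1 * nu ^ x.2) :=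
      summable_nu.mul_of_nonneg summable_nu hn0 hn0
    have s2 : Summable (fun x : ℕ × (ℕ × ℕ) => nu ^ x.1 * (nu ^ x.2.1 * nu ^ x.2.2)) :=
      summable_nu.mul_of_nonneg s1 hn0 (fun x => by simp only [Pi.zero_apply]; positivity)
    have s3 : Summable (fun x : ℕ × (ℕ × (ℕ × ℕ)) =>
        ps ^ x.1 * (nu ^ x.2.1 * (nu ^ x.2.2.1 * nu ^ x.2.2.2))) :=
      summable_ps.mul_of_nonneg s2 hp0 (fun x => by simp only [Pi.zero_apply]; positivity)
    exact s3.mul_left 64
  have hB0 : ∀ i, 0 ≤ B i := by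
    intro i; simp only [hB]; positivity
  refine ⟨∑' i, B i, ?_⟩
  intro X hX
  apply sum_fiber X ι _ B hBs hB0
  rintro ⟨q, R, n, a⟩ hi
  have hne : ∀ l ∈ X, l ≠ [] := by
    intro l hl h
    obtain ⟨_, i, hi, _⟩ := hX l hl
    rw [h] at hi
    simp at hi
  obtain ⟨l0, hl0, hl0i⟩ := Finset.mem_image.mp hi
  have hq : 4 ≤ q := by
    obtain ⟨_, i, hi, h4⟩ := hX l0 hl0
    have h1 := (hf l0 (hne l0 hl0)).le i hi
    simp only [hι, Prod.mk.injEq] at hl0i
    omega
  have haR : a ≤ R + n + 2 := by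
    have h1 := (hg l0).le
    have h2 := (hf l0 (hne l0 hl0)).lt
    simp only [hι, Prod.mk.injEq] at hl0i
    omega
  have hfam := fam_le (q := q) (R := R) (n := n) (a := a) hq (X.filter (fun l => ι l = (q, R, n, a)))
    (by
      intro l hl
      rw [Finset.mem_filter] at hl
      obtain ⟨hl1, hl2⟩ := hl
      have h1 := hf l (hne l hl1)
      have h2 := hg l
      simp only [hι, Prod.mk.injEq] at hl2
      obtain ⟨e1, e2, e3, e4⟩ := hl2
      rw [e1, e2] at h1
      rw [e2] at e3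
      rw [e4] at h2
      have := h1.lt
      exact ⟨(hX l hl1).1, by omega, h1, h2⟩)
  refine hfam.trans ?_
  have h1 := Yb_mul R n a
  have h2 := nu_bound haR
  have h3 : Yb R a (a - 1) * Yb n a (a - 2 - R) ≤ 64 * nu ^ (R + n + a) := by linarith
  calc ps ^ q * (Yb R a (a - 1) * Yb n a (a - 2 - R)) ≤ ps ^ q * (64 * nu ^ (R + n + a)) :=
        mul_le_mul_of_nonneg_left h3 (by positivity)
    _ = B (q, R, n, a) := by
        simp only [hB]
        rw [pow_add, pow_add]; ring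

/-- Valid prefixes: empty, or Kunz words with entries at most three ending in three. -/
def Pre (p : List ℕ) : Prop :=
  Kunz p ∧ (∀ i < p.length, p.getD i 0 ≤ 3) ∧ (p ≠ [] → p.getD (p.length - 1) 0 = 3)

/-- The total weight of the valid prefixes is finite. -/
theorem pre_bound : ∃ C : ℝ, ∀ X : Finset (List ℕ),
    (∀ l ∈ X, Pre l) → ∑ l ∈ X, ps ^ l.sum ≤ C := by
  classical
  have h0 := ps_pos
  have hnu : 0 < nu := by unfold nu; norm_num
  choose g hg using exists_minOne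
  set ι : List ℕ → ℕ × ℕ := fun l => (l.length - 1, g l) with hι
  set B : ℕ × ℕ → ℝ := fun i => 16 * (nu ^ i.1 * nu ^ i.2) with hB
  have hBs : Summable B := by
    have hn0 : (0 : ℕ → ℝ) ≤ fun n => nu ^ n := fun n => by simp only [Pi.zero_apply]; positivity
    have s1 : Summable (fun x : ℕ × ℕ => nu ^ x.1 * nu ^ x.2) :=
      summable_nu.mul_of_nonneg summable_nu hn0 hn0
    exact s1.mul_left 16
  have hB0 : ∀ i, 0 ≤ B i := by
    intro i; simp only [hB]; positivity
  refine ⟨∑' i, B i + 1, ?_⟩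
  intro X hX
  have hsplit : ∑ l ∈ X, ps ^ l.sum ≤ ∑ l ∈ X.filter (fun l => l ≠ []), ps ^ l.sum + 1 := by
    rw [← Finset.sum_filter_add_sum_filter_not X (fun l => l ≠ [])]
    gcongr
    calc ∑ l ∈ X.filter (fun l => ¬ (l ≠ [])), ps ^ l.sum
        ≤ ∑ l ∈ ({[]} : Finset (List ℕ)), ps ^ l.sum := by
          apply Finset.sum_le_sum_of_subset_of_nonneg
          · intro l hl
            rw [Finset.mem_filter, not_not] at hl
            simp [hl.2]
          · intro l _ _; positivity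
      _ = 1 := by simp
  refine hsplit.trans (add_le_add_left ?_ 1)
  apply sum_fiber _ ι _ B hBs hB0
  rintro ⟨R, a⟩ hi
  obtain ⟨l0, hl0, hl0i⟩ := Finset.mem_image.mp hi
  have hl0' := hl0
  rw [Finset.mem_filter] at hl0'
  have hlen : ∀ l : List ℕ, l ≠ [] → 0 < l.length := fun l h => List.length_pos_of_ne_nil h
  have haR : a ≤ R + 0 + 2 := by
    have h1 := (hg l0).le
    have h2 := hlen l0 hl0'.2
    simp only [hι, Prod.mk.injEq] at hl0i
    omega
  have ha : 0 < a := by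
    have h1 := (hg l0).pos
    simp only [hι, Prod.mk.injEq] at hl0i
    omega
  set X' := (X.filter (fun l => l ≠ [])).filter (fun l => ι l = (R, a)) with hX'
  have hmem : ∀ l ∈ X', Kunz l ∧ LastMax l 3 R ∧ MinOne l a ∧ l.length = R + 1 := by
    intro l hl
    rw [hX', Finset.mem_filter, Finset.mem_filter] at hl
    obtain ⟨⟨hl1, hl2⟩, hl3⟩ := hl
    obtain ⟨p1, p2, p3⟩ := hX l hl1
    have h2 := hg l
    have h3 := hlen l hl2
    simp only [hι, Prod.mk.injEq] at hl3
    rw [hl3.2] at h2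
    refine ⟨p1, ⟨by omega, ?_, p2, fun i hi hil => by omega⟩, h2, by omega⟩
    have := p3 hl2
    rwa [hl3.1] at this
  have hw : ∀ l ∈ X', ps ^ l.sum = ps ^ 3 * ps ^ (l.take R).sum := by
    intro l hl
    obtain ⟨h1, h2, h3, h4⟩ := hmem l hl
    conv_lhs => rw [split_at l h2.lt, h2.eq]
    have : l.drop (R + 1) = [] := by
      apply List.drop_eq_nil_of_le; omega
    rw [this, List.sum_append, pow_add]
    simp [mul_comm]
  rw [Finset.sum_congr rfl hw, ← Finset.mul_sum]
  have hinj : Set.InjOn (fun l : List ℕ => l.take R) (X' : Set (List ℕ)) := by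
    intro l hl l' hl' hll
    obtain ⟨h1, h2, h3, h4⟩ := hmem l hl
    obtain ⟨h1', h2', h3', h4'⟩ := hmem l' hl'
    simp only at hll
    have e1 : l.drop (R + 1) = [] := by
      apply List.drop_eq_nil_of_le; omega
    have e2 : l'.drop (R + 1) = [] := by
      apply List.drop_eq_nil_of_le; omega
    rw [split_at l h2.lt, split_at l' h2'.lt, h2.eq, h2'.eq, hll, e1, e2]
  rw [← Finset.sum_image (f := fun b : List ℕ => ps ^ b.sum) hinj]
  have hY : ∑ b ∈ X'.image (fun l => l.take R), ps ^ b.sum ≤ Yb R a (a - 1) := by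
    apply sum_sym (q := 3) le_rfl ha (by omega)
    intro b hb
    obtain ⟨l, hl, rfl⟩ := Finset.mem_image.mp hb
    obtain ⟨h1, h2, h3, h4⟩ := hmem l hl
    exact low_sym h1 h2 h3
  have h1 := Yb_one R a
  have h2 := nu_bound (R := R) (n := 0) (a := a) haR
  have h3 : ps ^ 3 ≤ 1 := pow_le_one₀ h0.le ps_lt_one.le
  have h4 : 0 ≤ ∑ b ∈ X'.image (fun l => l.take R), ps ^ b.sum :=
    Finset.sum_nonneg (fun _ _ => by positivity)
  calc ps ^ 3 * ∑ b ∈ X'.image (fun l => l.take R), ps ^ b.sum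
      ≤ 1 * ∑ b ∈ X'.image (fun l => l.take R), ps ^ b.sum := mul_le_mul_of_nonneg_right h3 h4
    _ ≤ B (R, a) := by
        simp only [hB]
        rw [← pow_add]
        rw [Nat.zero_div, add_zero] at h2
        rw [add_zero] at h2
        linarith

end Pool.Agent.H32.NS
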