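import Pool.Agent.H32.NS.Num

set_option autoImplicit false

namespace Pool.Agent.H32.NS

/-- Number of elements of `c, c + a, ...` below `N` (for `c < N`). -/
def Len (N a c : ℕ) : ℕ := (N - 1 - c) / a + 1

theorem len_iff {N a c t : ℕ} (ha : 0 < a) (hc : c < N) : t < Len N a c ↔ c + t * a < N := by
  unfold Len
  rw [Nat.lt_succ_iff, Nat.le_div_iff_mul_le ha]
  omega

theorem regroup (N a : ℕ) (ha : 0 < a) (g : ℕ → ℝ) :
    ∏ i ∈ Finset.range N, g i =
      ∏ c ∈ Finset.range (min a N), ∏ t ∈ Finset.range (Len N a c), g (c + t * a) := by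
  rw [Finset.prod_sigma']
  apply Finset.prod_bij' (fun i _ => (⟨i % a, i / a⟩ : (_ : ℕ) × ℕ)) (fun x _ => x.1 + x.2 * a)
  · intro i hi
    rw [Finset.mem_range] at hi
    rw [Finset.mem_sigma, Finset.mem_range, Finset.mem_range]
    have h1 : i % a < a := Nat.mod_lt _ ha
    have h2 : i % a ≤ i := Nat.mod_le _ _
    refine ⟨lt_min h1 (show i % a < N by omega), ?_⟩
    rw [len_iff ha (show i % a < N by omega)]
    rw [Nat.mod_add_div']
    exact hi
  · intro x hx
    rw [Finset.mem_sigma, Finset.mem_range, Finset.mem_range] at hx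
    rw [Finset.mem_range]
    rw [lt_min_iff] at hx
    exact (len_iff ha hx.1.2).mp hx.2
  · intro i _
    exact Nat.mod_add_div' i a
  · intro x hx
    rw [Finset.mem_sigma, Finset.mem_range, Finset.mem_range, lt_min_iff] at hx
    obtain ⟨c, t⟩ := x
    simp only at hx ⊢
    have h1 : (c + t * a) % a = c := by
      rw [Nat.add_mul_mod_self_right, Nat.mod_eq_of_lt hx.1.1]
    have h2 : (c + t * a) / a = t := by
      rw [Nat.add_mul_div_right _ _ ha, Nat.div_eq_of_lt hx.1.1, zero_add]
    rw [h1, h2]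
  · intro i _
    rw [Nat.mod_add_div']

/-- The lists of length `n` with entries in `[1,q]` that satisfy the reflection, the shift
and the initial restriction constraints. -/
structure SymL (q n a ρ : ℕ) (b : List ℕ) : Prop where
  len : b.length = n
  lo : ∀ i < n, 1 ≤ b.getD i 0
  hi : ∀ i < n, b.getD i 0 ≤ q
  refl : ∀ i < n, q ≤ b.getD i 0 + b.getD (n - 1 - i) 0
  shift : ∀ i, i + a < n → b.getD (i + a) 0 ≤ b.getD i 0 + 1
  start : ∀ i < n, i < ρ → 2 ≤ b.getD i 0

def stt (b : List ℕ) (n j : ℕ) : ℕ × ℕ := (b.getD j 0, b.getD (n - 1 - j) 0)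

def col (b : List ℕ) (n a c : ℕ) : List (ℕ × ℕ) :=
  (List.range (Len (n / 2) a c)).map (fun t => stt b n (c + t * a))

def Ini (q n ρ c : ℕ) : Finset (ℕ × ℕ) :=
  (St q).filter (fun s => (c < ρ → 2 ≤ s.1) ∧ (n - 1 - c < ρ → 2 ≤ s.2))

theorem mem_St {q : ℕ} {s : ℕ × ℕ} :
    s ∈ St q ↔ (1 ≤ s.1 ∧ s.1 ≤ q) ∧ (1 ≤ s.2 ∧ s.2 ≤ q) ∧ q ≤ s.1 + s.2 := by
  unfold St
  rw [Finset.mem_filter, Finset.mem_product, Finset.mem_Icc, Finset.mem_Icc]
  tauto

theorem SymL.stt_mem {q n a ρ : ℕ} {b : List ℕ} (h : SymL q n a ρ b) {j : ℕ} (hj : j < n / 2) :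
    stt b n j ∈ St q := by
  rw [mem_St]
  have h1 : j < n := by omega
  have h2 : n - 1 - j < n := by omega
  exact ⟨⟨h.lo _ h1, h.hi _ h1⟩, ⟨h.lo _ h2, h.hi _ h2⟩, h.refl j h1⟩

theorem SymL.tr {q n a ρ : ℕ} {b : List ℕ} (h : SymL q n a ρ b) {j : ℕ} (hj : j + a < n / 2) :
    Tr (stt b n j) (stt b n (j + a)) := by
  refine ⟨h.shift j (by omega), ?_⟩
  have h1 := h.shift (n - 1 - (j + a)) (by omega)
  have h2 : n - 1 - (j + a) + a = n - 1 - j := by omega
  rw [h2] at h1
  exact h1

theorem SymL.col_mem {q n a ρ : ℕ} {b : List ℕ} (h : SymL q n a ρ b) (ha : 0 < a) {c : ℕ}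
    (hc : c < n / 2) : col b n a c ∈ chains q (Ini q n ρ c) (Len (n / 2) a c) := by
  obtain ⟨k, hk⟩ : ∃ k, Len (n / 2) a c = k + 1 := ⟨_, rfl⟩
  unfold col
  rw [hk, List.range_succ_eq_map, List.map_cons, List.map_map]
  have hlen : ((List.range k).map ((fun t => stt b n (c + t * a)) ∘ Nat.succ)).length = k := by
    simp
  have h0 : stt b n (c + 0 * a) = stt b n c := by simp
  have key : ∀ t, t < k + 1 → c + t * a < n / 2 := by
    intro t ht
    rw [← hk] at ht
    exact (len_iff ha hc).mp ht
  have := mem_chains q (Ini q n ρ c) (stt b n (c + 0 * a))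
    ((List.range k).map ((fun t => stt b n (c + t * a)) ∘ Nat.succ)) ?_ ?_ ?_
  · rw [hlen] at this
    exact this
  · rw [h0]
    unfold Ini
    rw [Finset.mem_filter]
    exact ⟨h.stt_mem hc, fun hcr => h.start c (by omega) hcr,
      fun hcr => h.start (n - 1 - c) (by omega) hcr⟩
  · intro x hx
    rw [List.mem_map] at hx
    obtain ⟨t, ht, rfl⟩ := hx
    rw [List.mem_range] at ht
    exact h.stt_mem (key (t + 1) (by omega))
  · have e1 : stt b n (c + 0 * a) ::
        (List.range k).map ((fun t => stt b n (c + t * a)) ∘ Nat.succ) =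
        (List.range (k + 1)).map (fun t => stt b n (c + t * a)) := by
      rw [List.range_succ_eq_map, List.map_cons, List.map_map]
    rw [e1, List.isChain_iff_getElem]
    intro i hi
    simp only [List.length_map, List.length_range] at hi
    simp only [List.getElem_map, List.getElem_range]
    have h1 := key (i + 1) (by omega)
    have h2 : c + (i + 1) * a = c + i * a + a := by ring
    rw [h2] at h1 ⊢
    exact h.tr h1

/-- The middle entry. -/
def mid (b : List ℕ) (n : ℕ) : ℕ := if n % 2 = 1 then b.getD (n / 2) 0 else 0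

theorem sum_eq_range (b : List ℕ) : b.sum = ∑ i ∈ Finset.range b.length, b.getD i 0 := by
  induction b with
  | nil => simp
  | cons x b ih =>
    rw [List.sum_cons, List.length_cons, Finset.sum_range_succ', ih]
    simp [add_comm]

theorem sum_pairs (n : ℕ) (f : ℕ → ℕ) : ∑ i ∈ Finset.range n, f i =
    ∑ j ∈ Finset.range (n / 2), (f j + f (n - 1 - j)) + (if n % 2 = 1 then f (n / 2) else 0) := by
  rw [Finset.sum_add_distrib]
  have h1 : ∑ j ∈ Finset.range (n / 2), f (n - 1 - j) =
      ∑ j ∈ Finset.Ico (n - n / 2) n, f j := by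
    apply Finset.sum_bij' (fun j _ => n - 1 - j) (fun j _ => n - 1 - j)
    · intro j hj
      rw [Finset.mem_range] at hj
      rw [Finset.mem_Ico]; omega
    · intro j hj
      rw [Finset.mem_Ico] at hj
      rw [Finset.mem_range]; omega
    · intro j hj
      rw [Finset.mem_range] at hj
      omega
    · intro j hj
      rw [Finset.mem_Ico] at hj
      omega
    · intro j _; rfl
  rw [h1]
  have h2 : ∑ i ∈ Finset.range n, f i = ∑ i ∈ Finset.range (n / 2), f i +
      ∑ i ∈ Finset.Ico (n / 2) n, f i := by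
    rw [Finset.sum_range_add_sum_Ico _ (by omega)]
  rw [h2]
  by_cases hn : n % 2 = 1
  · rw [if_pos hn]
    have h3 : n - n / 2 = n / 2 + 1 := by omega
    rw [h3, Finset.sum_eq_sum_Ico_succ_bot (by omega : n / 2 < n)]
    ring
  · rw [if_neg hn]
    have h3 : n - n / 2 = n / 2 := by omega
    rw [h3]; ring

theorem list_prod_range (k : ℕ) (f : ℕ → ℝ) :
    ((List.range k).map f).prod = ∏ t ∈ Finset.range k, f t := by
  induction k with
  | zero => simp
  | succ k ih =>
    rw [List.range_succ, List.map_append, List.prod_append, ih, Finset.prod_range_succ]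
    simp

theorem W_col (b : List ℕ) (n a c : ℕ) :
    W (col b n a c) = ∏ t ∈ Finset.range (Len (n / 2) a c), wt (stt b n (c + t * a)) := by
  unfold W col
  rw [List.map_map, list_prod_range]
  rfl

theorem weight_eq {q n a ρ : ℕ} {b : List ℕ} (h : SymL q n a ρ b) (ha : 0 < a) :
    ps ^ b.sum = ps ^ mid b n * ∏ c ∈ Finset.range (min a (n / 2)), W (col b n a c) := by
  have h1 : ∏ c ∈ Finset.range (min a (n / 2)), W (col b n a c) =
      ∏ j ∈ Finset.range (n / 2), wt (stt b n j) := by
    rw [regroup (n / 2) a ha]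
    apply Finset.prod_congr rfl
    intro c _
    exact W_col b n a c
  rw [h1, sum_eq_range, h.len, sum_pairs n (fun i => b.getD i 0), pow_add, mul_comm]
  congr 1
  rw [← Finset.prod_pow_eq_pow_sum]
  rfl

theorem stt_of_col {b b' : List ℕ} {n a : ℕ} (ha : 0 < a)
    (h : ∀ c, c < min a (n / 2) → col b n a c = col b' n a c) {j : ℕ} (hj : j < n / 2) :
    stt b n j = stt b' n j := by
  have h1 : j % a < a := Nat.mod_lt _ ha
  have h2 : j % a ≤ j := Nat.mod_le _ _
  have h3 := h (j % a) (lt_min h1 (by omega))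
  have h4 : j / a < Len (n / 2) a (j % a) := by
    rw [len_iff ha (by omega), Nat.mod_add_div']
    exact hj
  have h5 : (col b n a (j % a)).getD (j / a) (0, 0) = (col b' n a (j % a)).getD (j / a) (0, 0) := by
    rw [h3]
  unfold col at h5
  rw [List.getD_eq_getElem _ _ (by simpa using h4), List.getD_eq_getElem _ _ (by simpa using h4)] at h5
  simp only [List.getElem_map, List.getElem_range] at h5
  rwa [Nat.mod_add_div'] at h5

theorem ext_getD {b b' : List ℕ} (h : b.length = b'.length)
    (h2 : ∀ i < b.length, b.getD i 0 = b'.getD i 0) : b = b' := by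
  apply List.ext_getElem h
  intro i h3 h4
  have := h2 i h3
  rwa [List.getD_eq_getElem _ _ h3, List.getD_eq_getElem _ _ h4] at this

theorem inj_cols {q n a ρ : ℕ} {b b' : List ℕ} (hb : SymL q n a ρ b) (hb' : SymL q n a ρ b')
    (ha : 0 < a) (hm : mid b n = mid b' n)
    (h : ∀ c, c < min a (n / 2) → col b n a c = col b' n a c) : b = b' := by
  apply ext_getD (hb.len.trans hb'.len.symm)
  rw [hb.len]
  intro i hi
  rcases Nat.lt_or_ge i (n / 2) with h1 | h1
  · exact congrArg Prod.fst (stt_of_col ha h h1)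
  · rcases Nat.lt_or_ge (n - 1 - i) (n / 2) with h2 | h2
    · have h3 := congrArg Prod.snd (stt_of_col ha h h2)
      simp only [stt] at h3
      have h4 : n - 1 - (n - 1 - i) = i := by omega
      rwa [h4] at h3
    · have h3 : n % 2 = 1 := by omega
      have h4 : i = n / 2 := by omega
      unfold mid at hm
      rw [if_pos h3, if_pos h3] at hm
      rw [h4]; exact hm

/-- Sum over a finite family of symmetric lists. -/
theorem sum_sym_le {q n a ρ : ℕ} (ha : 0 < a) (X : Finset (List ℕ))
    (hX : ∀ b ∈ X, SymL q n a ρ b) :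
    ∑ b ∈ X, ps ^ b.sum ≤ 3 * ∏ c ∈ Finset.range (min a (n / 2)),
      ∑ l ∈ chains q (Ini q n ρ c) (Len (n / 2) a c), W l := by
  classical
  have h0 := ps_pos
  set a' := min a (n / 2) with ha'
  set t : Fin a' → Finset (List (ℕ × ℕ)) :=
    fun c => chains q (Ini q n ρ c) (Len (n / 2) a c) with ht
  set φ : List ℕ → ℕ × (Fin a' → List (ℕ × ℕ)) := fun b => (mid b n, fun c => col b n a c) with hφ
  set G : ℕ × (Fin a' → List (ℕ × ℕ)) → ℝ := fun d => ps ^ d.1 * ∏ c, W (d.2 c) with hG
  have hw : ∀ b ∈ X, ps ^ b.sum = G (φ b) := by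
    intro b hb
    rw [weight_eq (hX b hb) ha, ← ha', Finset.prod_range (fun c => W (col b n a c))]
  have hinj : Set.InjOn φ (X : Set (List ℕ)) := by
    intro b hb b' hb' hbb
    apply inj_cols (hX b hb) (hX b' hb') ha (congrArg Prod.fst hbb)
    intro c hc
    exact congrFun (congrArg Prod.snd hbb) (⟨c, hc⟩ : Fin a')
  have hmem : ∀ b ∈ X, φ b ∈ (Finset.range (q + 1)) ×ˢ (Fintype.piFinset t) := by
    intro b hb
    rw [Finset.mem_product]
    constructor
    · simp only [hφ, mid, Finset.mem_range]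
      split_ifs with h1
      · have := (hX b hb).hi (n / 2) (by omega)
        omega
      · omega
    · rw [Fintype.mem_piFinset]
      intro c
      exact (hX b hb).col_mem ha (lt_of_lt_of_le c.2 (min_le_right _ _))
  have hGnn : ∀ d, 0 ≤ G d := by
    intro d
    exact mul_nonneg (pow_nonneg h0.le _) (Finset.prod_nonneg (fun c _ => W_nonneg _))
  calc ∑ b ∈ X, ps ^ b.sum = ∑ b ∈ X, G (φ b) := Finset.sum_congr rfl hw
    _ = ∑ d ∈ X.image φ, G d := (Finset.sum_image hinj).symm
    _ ≤ ∑ d ∈ (Finset.range (q + 1)) ×ˢ (Fintype.piFinset t), G d := by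
        apply Finset.sum_le_sum_of_subset_of_nonneg
        · intro d hd
          obtain ⟨b, hb, rfl⟩ := Finset.mem_image.mp hd
          exact hmem b hb
        · intro d _ _; exact hGnn d
    _ = (∑ m ∈ Finset.range (q + 1), ps ^ m) * ∑ f ∈ Fintype.piFinset t, ∏ c, W (f c) := by
        rw [Finset.sum_product, Finset.sum_mul]
        apply Finset.sum_congr rfl
        intro m _
        rw [Finset.mul_sum]
    _ = (∑ m ∈ Finset.range (q + 1), ps ^ m) * ∏ c, ∑ l ∈ t c, W l := by
        rw [Finset.prod_univ_sum]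
    _ ≤ 3 * ∏ c, ∑ l ∈ t c, W l := by
        apply mul_le_mul_of_nonneg_right
        · have h1 := geom_Ico 0 (q + 1)
          rw [← Finset.range_eq_Ico] at h1
          refine h1.trans ?_
          rw [pow_zero, div_le_iff₀ (by positivity), ps_sq]
          have := ps_lt
          linarith
        · exact Finset.prod_nonneg (fun c _ => Finset.sum_nonneg (fun l _ => W_nonneg l))
    _ = _ := by
        rw [Finset.prod_range (fun c => ∑ l ∈ chains q (Ini q n ρ c) (Len (n / 2) a c), W l)]

theorem Len_sum (N a : ℕ) (ha : 0 < a) :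
    ∑ c ∈ Finset.range (min a N), (Len N a c - 1) = N - min a N := by
  have h1 : ∑ c ∈ Finset.range (min a N), Len N a c = N := by
    have := regroup N a ha (fun _ => 2)
    simp only [Finset.prod_const, Finset.card_range] at this
    rw [Finset.prod_pow_eq_pow_sum] at this
    have h2 : (2 : ℝ) ^ N = 2 ^ (∑ c ∈ Finset.range (min a N), Len N a c) := this
    exact (pow_right_injective₀ (by norm_num) (by norm_num) h2).symm
  have h2 : ∑ c ∈ Finset.range (min a N), (Len N a c - 1) + ∑ c ∈ Finset.range (min a N), 1 = N := by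
    rw [← Finset.sum_add_distrib]
    conv_rhs => rw [← h1]
    apply Finset.sum_congr rfl
    intro c _
    have : 1 ≤ Len N a c := Nat.le_add_left _ _
    omega
  simp only [Finset.sum_const, Finset.card_range, smul_eq_mul, mul_one] at h2
  omega

/-- Bound for one column. -/
theorem column_le {q n a ρ c : ℕ} (hq : 3 ≤ q) (hρ : ρ ≤ n / 2) (hc : c < n / 2) :
    ∑ l ∈ chains q (Ini q n ρ c) (Len (n / 2) a c), W l ≤
      (if c < ρ then (85 / 100 : ℝ) else 115 / 100) * (97 / 100) ^ (Len (n / 2) a c - 1) := by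
  obtain ⟨h1, h2, h3⟩ := num_all q hq
  obtain ⟨k, hk⟩ : ∃ k, Len (n / 2) a c = k + 1 := ⟨_, rfl⟩
  rw [hk, sum_chains, Nat.add_sub_cancel]
  split_ifs with hcr
  · have : Ini q n ρ c = Sts q := by
      unfold Ini Sts
      apply Finset.filter_congr
      intro s _
      have : ¬ (n - 1 - c < ρ) := by omega
      simp [hcr, this]
    rw [this]; exact h2 k
  · have : Ini q n ρ c = St q := by
      unfold Ini
      apply Finset.filter_true_of_mem
      intro s _
      have : ¬ (n - 1 - c < ρ) := by omega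
      simp [hcr, this]
    rw [this]; exact h1 k

/-- Bound for one column when the restriction reaches beyond the middle. -/
theorem column_le2 {q n a ρ c : ℕ} (hq : 3 ≤ q) (hρ : n / 2 < ρ) (hra : ρ ≤ a) (hc : c < n / 2) :
    ∑ l ∈ chains q (Ini q n ρ c) (Len (n / 2) a c), W l ≤
      (85 / 100 : ℝ) ^ (if n - 1 - c < ρ then 2 else 1) := by
  obtain ⟨h1, h2, h3⟩ := num_all q hq
  have hk : Len (n / 2) a c = 0 + 1 := by
    unfold Len
    rw [Nat.div_eq_of_lt (by omega)]
  rw [hk, sum_chains]
  split_ifs with hcr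
  · have : Ini q n ρ c = Stb q := by
      unfold Ini Stb
      apply Finset.filter_congr
      intro s _
      have : c < ρ := by omega
      simp [hcr, this]
    rw [this]
    simp only [F, mul_one]
    exact h3
  · have : Ini q n ρ c = Sts q := by
      unfold Ini Sts
      apply Finset.filter_congr
      intro s _
      have : c < ρ := by omega
      simp [hcr, this]
    rw [this]
    have := h2 0
    simpa using this

/-- The bound for symmetric lists. -/
noncomputable def Yb (n a ρ : ℕ) : ℝ :=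
  4 * ((85 / 100 : ℝ) ^ (min ρ n) * (115 / 100) ^ (min a (n / 2) - ρ) *
    (97 / 100) ^ (n / 2 - min a (n / 2)))

theorem sum_sym {q n a ρ : ℕ} (hq : 3 ≤ q) (ha : 0 < a) (hρ : ρ ≤ a) (X : Finset (List ℕ))
    (hX : ∀ b ∈ X, SymL q n a ρ b) : ∑ b ∈ X, ps ^ b.sum ≤ Yb n a ρ := by
  refine (sum_sym_le ha X hX).trans ?_
  have hnn : ∀ c ∈ Finset.range (min a (n / 2)),
      0 ≤ ∑ l ∈ chains q (Ini q n ρ c) (Len (n / 2) a c), W l :=
    fun c _ => Finset.sum_nonneg (fun l _ => W_nonneg l)
  unfold Yb
  rcases Nat.lt_or_ge (n / 2) ρ with h | h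
  · -- restriction beyond the middle
    have hm : min a (n / 2) = n / 2 := min_eq_right (by omega)
    rw [hm, Nat.sub_self, pow_zero, mul_one, Nat.sub_eq_zero_of_le (by omega : n / 2 ≤ ρ), pow_zero,
      mul_one]
    rw [hm] at hnn
    have h1 : ∏ c ∈ Finset.range (n / 2), ∑ l ∈ chains q (Ini q n ρ c) (Len (n / 2) a c), W l ≤
        ∏ c ∈ Finset.range (n / 2), (85 / 100 : ℝ) ^ (if n - 1 - c < ρ then 2 else 1) := by
      apply Finset.prod_le_prod hnn
      intro c hc
      exact column_le2 hq h hρ (Finset.mem_range.mp hc)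
    rw [Finset.prod_pow_eq_pow_sum] at h1
    have h2 : min ρ n ≤ (∑ c ∈ Finset.range (n / 2), (if n - 1 - c < ρ then 2 else 1)) + 1 := by
      have h3 : ∀ M, M ≤ n → ∑ c ∈ Finset.range M, (if n - 1 - c < ρ then 2 else 1) =
          M + (M - (n - ρ)) := by
        intro M
        induction M with
        | zero => intro _; simp
        | succ M ih =>
          intro hM
          rw [Finset.sum_range_succ, ih (by omega)]
          split_ifs <;> omega
      rw [h3 _ (by omega)]
      omega
    have hnn' : 0 ≤ ∏ c ∈ Finset.range (n / 2),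
        ∑ l ∈ chains q (Ini q n ρ c) (Len (n / 2) a c), W l := Finset.prod_nonneg hnn
    generalize ∑ c ∈ Finset.range (n / 2), (if n - 1 - c < ρ then 2 else 1) = e at h1 h2
    have h3 : (85 / 100 : ℝ) ^ (e + 1) ≤ (85 / 100 : ℝ) ^ (min ρ n) :=
      pow_le_pow_of_le_one (by norm_num) (by norm_num) h2
    rw [pow_succ] at h3
    linarith
  · have hm : ρ ≤ min a (n / 2) := le_min hρ h
    have hmn : min ρ n = ρ := min_eq_left (by omega)
    rw [hmn]
    have h1 : ∏ c ∈ Finset.range (min a (n / 2)),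
        ∑ l ∈ chains q (Ini q n ρ c) (Len (n / 2) a c), W l ≤
        ∏ c ∈ Finset.range (min a (n / 2)), ((if c < ρ then (85 / 100 : ℝ) else 115 / 100) *
          (97 / 100) ^ (Len (n / 2) a c - 1)) := by
      apply Finset.prod_le_prod hnn
      intro c hc
      rw [Finset.mem_range, lt_min_iff] at hc
      exact column_le hq h hc.2
    rw [Finset.prod_mul_distrib, Finset.prod_pow_eq_pow_sum, Len_sum _ _ ha] at h1
    have h2 : ∀ M, ρ ≤ M → ∏ c ∈ Finset.range M, (if c < ρ then (85 / 100 : ℝ) else 115 / 100) =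
        (85 / 100) ^ ρ * (115 / 100) ^ (M - ρ) := by
      intro M hM
      obtain ⟨d, rfl⟩ := Nat.exists_eq_add_of_le hM
      rw [Nat.add_sub_cancel_left]
      clear hM
      induction d with
      | zero =>
        rw [add_zero, pow_zero, mul_one]
        rw [Finset.prod_congr rfl (g := fun _ => (85 / 100 : ℝ))]
        · rw [Finset.prod_const, Finset.card_range]
        · intro x hx
          rw [Finset.mem_range] at hx
          rw [if_pos hx]
      | succ d ih =>
        rw [← add_assoc, Finset.prod_range_succ, ih, if_neg (by omega)]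
        ring
    rw [h2 _ hm] at h1
    have hpos : (0 : ℝ) ≤ (85 / 100) ^ ρ * (115 / 100) ^ (min a (n / 2) - ρ) *
        (97 / 100) ^ (n / 2 - min a (n / 2)) := by positivity
    linarith

end Pool.Agent.H32.NS
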