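import Pool.Agent.H32.NS.Bad
import Pool.Agent.H32.NS.Sum

set_option autoImplicit false

namespace Pool.Agent.H32.NS

/-- The residue with index `i` is that of a pseudo-Frobenius number. -/
def Cond (l : List ℕ) (i : ℕ) : Prop :=
  ∀ j < l.length, (i + j + 1 < l.length → l.getD (i + j + 1) 0 < l.getD i 0 + l.getD j 0) ∧
    (l.length ≤ i + j → l.getD (i + j - l.length) 0 ≤ l.getD i 0 + l.getD j 0)

instance (l : List ℕ) (i : ℕ) : Decidable (Cond l i) := by unfold Cond; infer_instance

/-- The type in terms of the Kunz word. -/
def ty (l : List ℕ) : ℕ := ((Finset.range l.length).filter (Cond l)).card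

theorem sign_ty (l : List ℕ) :
    (-1 : ℤ) ^ ty l = ∏ i ∈ Finset.range l.length, (if Cond l i then -1 else 1) := by
  unfold ty
  rw [Finset.prod_ite, Finset.prod_const, Finset.prod_const_one, mul_one]

theorem getD_app_left {p c : List ℕ} {i : ℕ} (h : i < p.length) :
    (p ++ c).getD i 0 = p.getD i 0 := List.getD_append _ _ _ _ h

theorem getD_app_right {p c : List ℕ} {i : ℕ} (h : p.length ≤ i) :
    (p ++ c).getD i 0 = c.getD (i - p.length) 0 := List.getD_append_right _ _ _ _ h

def CondP (p : List ℕ) (i : ℕ) : Prop :=
  ∀ j < p.length, i + j + 1 < p.length → p.getD (i + j + 1) 0 < p.getD i 0 + p.getD j 0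

instance (l : List ℕ) (i : ℕ) : Decidable (CondP l i) := by unfold CondP; infer_instance

theorem getD_12 {c : List ℕ} (hc : ∀ x ∈ c, x = 1 ∨ x = 2) {i : ℕ} (hi : i < c.length) :
    c.getD i 0 = 1 ∨ c.getD i 0 = 2 := by
  rw [List.getD_eq_getElem _ _ hi]
  exact hc _ (List.getElem_mem hi)

section

variable {p c : List ℕ} (hp : Pre p) (hc : ∀ x ∈ c, x = 1 ∨ x = 2)

include hp hc

theorem entry_bounds {i : ℕ} (hi : i < (p ++ c).length) :
    1 ≤ (p ++ c).getD i 0 ∧ (p ++ c).getD i 0 ≤ 3 := by
  rw [List.length_append] at hi
  rcases Nat.lt_or_ge i p.length with h | h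
  · rw [getD_app_left h]
    exact ⟨hp.1.pos i h, hp.2.1 i h⟩
  · rw [getD_app_right h]
    rcases getD_12 hc (i := i - p.length) (by omega) with h1 | h1 <;> omega

theorem entry_high {i : ℕ} (hi : p.length ≤ i) (hi2 : i < (p ++ c).length) :
    (p ++ c).getD i 0 ≤ 2 := by
  rw [getD_app_right hi]
  rw [List.length_append] at hi2
  rcases getD_12 hc (i := i - p.length) (by omega) with h1 | h1 <;> omega

theorem cond_low {i : ℕ} (hi : i < p.length) (h2 : 2 ≤ p.getD i 0) :
    Cond (p ++ c) i ↔ CondP p i := by
  constructor
  · intro h j hj hij
    have := (h j (by rw [List.length_append]; omega)).1 (by rw [List.length_append]; omega)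
    rwa [getD_app_left hij, getD_app_left hi, getD_app_left hj] at this
  · intro h j hj
    have hj' := hj
    rw [List.length_append] at hj'
    have hb := entry_bounds hp hc hj
    constructor
    · intro hij
      rw [getD_app_left hi]
      rcases Nat.lt_or_ge (i + j + 1) p.length with h3 | h3
      · rw [getD_app_left h3, getD_app_left (show j < p.length by omega)]
        exact h j (by omega) h3
      · rw [getD_app_right h3]
        rw [List.length_append] at hij
        rcases getD_12 hc (i := i + j + 1 - p.length) (by omega) with h4 | h4 <;> omega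
    · intro hij
      have h3 := entry_bounds hp hc (i := i + j - (p ++ c).length)
        (by rw [List.length_append] at *; omega)
      rw [getD_app_left hi]
      omega

theorem cond_two {i : ℕ} (hi : p.length ≤ i) (hi2 : i < (p ++ c).length)
    (h2 : (p ++ c).getD i 0 = 2) : Cond (p ++ c) i := by
  intro j hj
  have hb := entry_bounds hp hc hj
  constructor
  · intro hij
    rw [h2, getD_app_right (show p.length ≤ i + j + 1 by omega)]
    rw [List.length_append] at hij
    rcases getD_12 hc (i := i + j + 1 - p.length) (by omega) with h4 | h4 <;> omega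
  · intro hij
    have h3 := entry_bounds hp hc (i := i + j - (p ++ c).length)
      (by rw [List.length_append] at *; omega)
    omega

/-- A small pseudo-Frobenius residue forces a bad word. -/
theorem bad_of_cond {E i : ℕ} (hi : i < (p ++ c).length) (h1 : (p ++ c).getD i 0 = 1)
    (hcond : Cond (p ++ c) i) (hE : p.length + E < (p ++ c).length - i) : BadW E c := by
  set N := (p ++ c).length with hN
  have hNl : N = p.length + c.length := by rw [hN, List.length_append]
  refine ⟨N - i - 1 - p.length, by omega, by omega, ?_⟩
  intro k hk
  have h2 := (hcond (p.length + k) (by omega)).1 (by omega)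
  rw [h1, getD_app_right (show p.length ≤ i + (p.length + k) + 1 by omega),
    getD_app_right (show p.length ≤ p.length + k by omega)] at h2
  have e1 : i + (p.length + k) + 1 - p.length = c.length - (N - i - 1 - p.length) + k := by omega
  have e2 : p.length + k - p.length = k := by omega
  rw [e1, e2] at h2
  omega

end

/-- Condition for the residues near the top. -/
def TopC (r J : ℕ) (P y : List ℕ) (d : ℕ) : Prop :=
  y.getD (J - d) 0 = 2 ∨
    ((∀ j < d - 1, y.getD (J - d + j + 1) 0 ≤ P.getD j 0) ∧
     (∀ e < r, e + d < r + J → P.getD e 0 ≤ 1 + P.getD (e + d) 0))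

instance (r J : ℕ) (P y : List ℕ) (d : ℕ) : Decidable (TopC r J P y d) := by
  unfold TopC; infer_instance

theorem cond_top {p u v y : List ℕ} (hp : Pre p) {J : ℕ} (hu : u ∈ V J) (hy : y ∈ V J)
    (hv : ∀ x ∈ v, x = 1 ∨ x = 2) {d : ℕ} (hd1 : 1 ≤ d) (hdJ : d ≤ J) :
    Cond (p ++ (u ++ (v ++ y))) ((p ++ (u ++ (v ++ y))).length - d) ↔
      TopC p.length J (p ++ u) y d := by
  rw [mem_V] at hu hy
  obtain ⟨hu1, hu2⟩ := hu
  obtain ⟨hy1, hy2⟩ := hy
  have hc : ∀ x ∈ u ++ (v ++ y), x = 1 ∨ x = 2 := by
    intro x hx
    rw [List.mem_append, List.mem_append] at hx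
    rcases hx with hx | hx | hx
    · exact hu1 x hx
    · exact hv x hx
    · exact hy1 x hx
  set l := p ++ (u ++ (v ++ y)) with hl
  have hN : l.length = p.length + (J + (v.length + J)) := by
    rw [hl, List.length_append, List.length_append, List.length_append, hu2, hy2]
  -- entries of the last block
  have hlast : ∀ k < J, l.getD (l.length - J + k) 0 = y.getD k 0 := by
    intro k hk
    rw [hN, hl, getD_app_right (by omega), getD_app_right (by omega), getD_app_right (by omega)]
    congr 1
    omega
  -- entries of the first block
  have hfirst : ∀ k < p.length + J, l.getD k 0 = (p ++ u).getD k 0 := by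
    intro k hk
    rw [hl, ← List.append_assoc, getD_app_left (by rw [List.length_append]; omega)]
  have hi : l.length - d < l.length := by omega
  have e0 : l.getD (l.length - d) 0 = y.getD (J - d) 0 := by
    have := hlast (J - d) (by omega)
    rw [← this]; congr 1; omega
  have hyv : y.getD (J - d) 0 = 1 ∨ y.getD (J - d) 0 = 2 := getD_12 hy1 (by omega)
  rcases hyv with h1 | h2
  · -- value one
    have hne : ¬ y.getD (J - d) 0 = 2 := by omega
    unfold TopC
    simp only [hne, false_or]
    constructor
    · intro hcond
      refine ⟨?_, ?_⟩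
      · intro j hj
        have h3 := (hcond j (by omega)).1 (by omega)
        rw [e0, h1] at h3
        have e1 : l.getD (l.length - d + j + 1) 0 = y.getD (J - d + j + 1) 0 := by
          have := hlast (J - d + j + 1) (by omega)
          rw [← this]; congr 1; omega
        rw [e1, hfirst j (by omega)] at h3
        omega
      · intro e he hed
        have h3 := (hcond (e + d) (by omega)).2 (by omega)
        rw [e0, h1] at h3
        have e1 : l.length - d + (e + d) - l.length = e := by omega
        rw [e1, hfirst e (by omega), hfirst (e + d) (by omega)] at h3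
        exact h3
    · rintro ⟨g1, g2⟩ j hj
      have hb := entry_bounds hp hc hj
      rw [← hl] at hb
      constructor
      · intro hij
        have h3 := g1 j (by omega)
        rw [e0, h1]
        have e1 : l.getD (l.length - d + j + 1) 0 = y.getD (J - d + j + 1) 0 := by
          have := hlast (J - d + j + 1) (by omega)
          rw [← this]; congr 1; omega
        rw [e1, hfirst j (by omega)]
        omega
      · intro hij
        rw [e0, h1]
        rcases Nat.lt_or_ge (l.length - d + j - l.length) p.length with h4 | h4
        · rcases Nat.lt_or_ge j (p.length + J) with h5 | h5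
          · have h6 := g2 (l.length - d + j - l.length) h4 (by omega)
            rw [hfirst _ (by omega), hfirst j h5]
            have e2 : l.length - d + j - l.length + d = j := by omega
            rw [e2] at h6
            exact h6
          · -- impossible: e + d = j ≥ r + J ≥ r + d
            exfalso; omega
        · have h5 := entry_high hp hc h4 (by rw [← hl]; omega)
          rw [← hl] at h5
          omega
  · constructor
    · intro _; exact Or.inl h2
    · intro _
      apply cond_two hp hc (by omega) hi
      rw [e0]; exact h2

/-- The sign attached to the prefix. -/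
def Asg (p : List ℕ) : ℤ :=
  ∏ i ∈ Finset.range p.length, (if 2 ≤ p.getD i 0 ∧ CondP p i then -1 else 1)

/-- The sign attached to the top block. -/
def Tsg (r J : ℕ) (P y : List ℕ) : ℤ :=
  ∏ k ∈ Finset.range J, (if TopC r J P y (k + 1) then -1 else 1)

theorem prod_sign_count (w : List ℕ) (hw : ∀ x ∈ w, x = 1 ∨ x = 2) :
    ∏ i ∈ Finset.range w.length, (if w.getD i 0 = 2 then (-1 : ℤ) else 1) =
      (-1 : ℤ) ^ w.count 2 := by
  induction w with
  | nil => simp
  | cons a w ih =>
    rw [List.length_cons, Finset.prod_range_succ', List.count_cons]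
    have h1 := ih (fun x hx => hw x (by simp [hx]))
    simp only [List.getD_cons_succ, List.getD_cons_zero]
    rw [h1]
    by_cases h2 : a = 2
    · simp [h2, pow_succ]
    · simp [h2]

/-- The decomposition of the sign of the type. -/
theorem sign_decomp {p u v y : List ℕ} (hp : Pre p) {J E : ℕ} (hJ : p.length + E ≤ J)
    (hu : u ∈ V J) (hy : y ∈ V J) (hv : ∀ x ∈ v, x = 1 ∨ x = 2)
    (hbad : ¬ BadW E (u ++ (v ++ y))) :
    (-1 : ℤ) ^ ty (p ++ (u ++ (v ++ y))) =
      Asg p * Tsg p.length J (p ++ u) y * (-1) ^ u.count 2 * (-1) ^ v.count 2 := by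
  have hu' := hu
  have hy' := hy
  rw [mem_V] at hu hy
  obtain ⟨hu1, hu2⟩ := hu
  obtain ⟨hy1, hy2⟩ := hy
  have hc : ∀ x ∈ u ++ (v ++ y), x = 1 ∨ x = 2 := by
    intro x hx
    rw [List.mem_append, List.mem_append] at hx
    rcases hx with hx | hx | hx
    · exact hu1 x hx
    · exact hv x hx
    · exact hy1 x hx
  rw [sign_ty]
  set l := p ++ (u ++ (v ++ y)) with hl
  have hN : l.length = p.length + ((u ++ v).length + J) := by
    rw [hl]; simp only [List.length_append]; omega
  set M := (u ++ v).length with hM
  have hMuv : M = J + v.length := by rw [hM, List.length_append, hu2]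
  have hsplit : ∏ i ∈ Finset.range l.length, (if Cond l i then (-1 : ℤ) else 1) =
      (∏ i ∈ Finset.range p.length, (if Cond l i then (-1 : ℤ) else 1)) *
      ((∏ i ∈ Finset.range M, (if Cond l (p.length + i) then (-1 : ℤ) else 1)) *
      (∏ k ∈ Finset.range J, (if Cond l (p.length + (M + k)) then (-1 : ℤ) else 1))) := by
    rw [hN, Finset.prod_range_add, Finset.prod_range_add]
  rw [hsplit]
  have h1 : ∏ i ∈ Finset.range p.length, (if Cond l i then (-1 : ℤ) else 1) = Asg p := by
    unfold Asg
    apply Finset.prod_congr rfl
    intro i hi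
    rw [Finset.mem_range] at hi
    by_cases h2 : 2 ≤ p.getD i 0
    · have := cond_low hp hc hi h2
      rw [← hl] at this
      simp only [this, h2, true_and]
    · have h3 : ¬ Cond l i := by
        intro hcond
        apply hbad
        apply bad_of_cond hp hc (i := i) (by rw [← hl]; omega) _ (by rw [← hl]; exact hcond)
          (by rw [← hl]; omega)
        rw [getD_app_left hi]
        have := hp.1.pos i hi
        omega
      simp only [h2, h3, false_and, if_false]
  have h2 : ∏ i ∈ Finset.range M, (if Cond l (p.length + i) then (-1 : ℤ) else 1) =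
      (-1) ^ u.count 2 * (-1) ^ v.count 2 := by
    rw [← pow_add, ← List.count_append, ← prod_sign_count (u ++ v) (by
      intro x hx
      rw [List.mem_append] at hx
      rcases hx with hx | hx
      · exact hu1 x hx
      · exact hv x hx)]
    apply Finset.prod_congr rfl
    intro i hi
    rw [Finset.mem_range] at hi
    have e1 : l.getD (p.length + i) 0 = (u ++ v).getD i 0 := by
      rw [hl, getD_app_right (by omega), ← List.append_assoc, getD_app_left (by
        rw [← hM]; omega)]
      congr 1; omega
    have h12 : (u ++ v).getD i 0 = 1 ∨ (u ++ v).getD i 0 = 2 := by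
      apply getD_12 _ (by omega)
      intro x hx
      rw [List.mem_append] at hx
      rcases hx with hx | hx
      · exact hu1 x hx
      · exact hv x hx
    rcases h12 with h12 | h12
    · have h3 : ¬ Cond l (p.length + i) := by
        intro hcond
        apply hbad
        apply bad_of_cond hp hc (i := p.length + i) (by rw [← hl]; omega) _
          (by rw [← hl]; exact hcond) (by rw [← hl]; omega)
        rw [← hl, e1]; exact h12
      rw [if_neg h3, if_neg (by omega)]
    · have h3 : Cond l (p.length + i) := by
        have := cond_two hp hc (i := p.length + i) (by omega) (by rw [← hl]; omega)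
          (by rw [← hl, e1]; exact h12)
        rw [← hl] at this
        exact this
      rw [if_pos h3, if_pos h12]
  have h3 : ∏ k ∈ Finset.range J, (if Cond l (p.length + (M + k)) then (-1 : ℤ) else 1) =
      Tsg p.length J (p ++ u) y := by
    unfold Tsg
    rw [← Finset.prod_range_reflect]
    apply Finset.prod_congr rfl
    intro k hk
    rw [Finset.mem_range] at hk
    have h4 := cond_top (v := v) hp hu' hy' hv (d := k + 1) (by omega) (by omega)
    rw [← hl] at h4
    have e1 : p.length + (M + (J - 1 - k)) = l.length - (k + 1) := by omega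
    rw [e1]
    simp only [h4]
  rw [h1, h2, h3]
  ring

end Pool.Agent.H32.NS
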