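import Pool.Agent.H32.NS.Chains

set_option autoImplicit false

namespace Pool.Agent.H32.NS

/-- Words over `{1,2}` with prescribed sum. -/
def W12 : ℕ → Finset (List ℕ)
  | 0 => {[]}
  | 1 => {[1]}
  | n + 2 => ((W12 (n + 1)).image (List.cons 1)) ∪ ((W12 n).image (List.cons 2))

theorem sum_W12_succ {M : Type*} [AddCommMonoid M] (n : ℕ) (f : List ℕ → M) :
    ∑ l ∈ W12 (n + 2), f l = ∑ l ∈ W12 (n + 1), f (1 :: l) + ∑ l ∈ W12 n, f (2 :: l) := by
  have hd : Disjoint ((W12 (n + 1)).image (List.cons 1)) ((W12 n).image (List.cons 2)) := by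
    rw [Finset.disjoint_left]
    intro l h1 h2
    obtain ⟨a, _, rfl⟩ := Finset.mem_image.mp h1
    obtain ⟨b, _, h⟩ := Finset.mem_image.mp h2
    have := (List.cons.inj h).1
    omega
  rw [W12, Finset.sum_union hd, Finset.sum_image, Finset.sum_image]
  · intro x _ y _ h; exact (List.cons.inj h).2
  · intro x _ y _ h; exact (List.cons.inj h).2

theorem mem_W12 (n : ℕ) (l : List ℕ) : l ∈ W12 n ↔ (∀ x ∈ l, x = 1 ∨ x = 2) ∧ l.sum = n := by
  induction n using Nat.strong_induction_on generalizing l with
  | _ n ih =>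
    match n, ih with
    | 0, _ =>
      simp only [W12, Finset.mem_singleton]
      constructor
      · rintro rfl; simp
      · rintro ⟨h1, h2⟩
        cases l with
        | nil => rfl
        | cons x l =>
          have := h1 x (by simp)
          simp only [List.sum_cons] at h2
          omega
    | 1, _ =>
      simp only [W12, Finset.mem_singleton]
      constructor
      · rintro rfl; simp
      · rintro ⟨h1, h2⟩
        cases l with
        | nil => simp at h2
        | cons x l =>
          have h3 := h1 x (by simp)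
          simp only [List.sum_cons] at h2
          cases l with
          | nil => simp at h2; rw [h2]
          | cons y l =>
            have h4 := h1 y (by simp)
            simp only [List.sum_cons] at h2
            omega
    | n + 2, ih =>
      rw [W12, Finset.mem_union, Finset.mem_image, Finset.mem_image]
      constructor
      · rintro (⟨a, ha, rfl⟩ | ⟨a, ha, rfl⟩)
        · rw [ih (n + 1) (by omega)] at ha
          refine ⟨?_, by simp [ha.2]; omega⟩
          intro x hx
          rw [List.mem_cons] at hx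
          rcases hx with rfl | hx
          · left; rfl
          · exact ha.1 x hx
        · rw [ih n (by omega)] at ha
          refine ⟨?_, by simp [ha.2]; omega⟩
          intro x hx
          rw [List.mem_cons] at hx
          rcases hx with rfl | hx
          · right; rfl
          · exact ha.1 x hx
      · rintro ⟨h1, h2⟩
        cases l with
        | nil => simp at h2
        | cons x l =>
          simp only [List.sum_cons] at h2
          rcases h1 x (by simp) with rfl | rfl
          · left
            exact ⟨l, (ih (n + 1) (by omega) l).mpr ⟨fun y hy => h1 y (by simp [hy]), by omega⟩, rfl⟩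
          · right
            exact ⟨l, (ih n (by omega) l).mpr ⟨fun y hy => h1 y (by simp [hy]), by omega⟩, rfl⟩

theorem card_W12_succ (n : ℕ) : (W12 (n + 2)).card = (W12 (n + 1)).card + (W12 n).card := by
  have := sum_W12_succ (M := ℕ) n (fun _ => 1)
  simpa using this

theorem card_W12_le (n : ℕ) : ((W12 n).card : ℝ) * ps ^ n ≤ 1 := by
  have h0 := ps_pos
  have h1 := ps_lt_one
  induction n using Nat.strong_induction_on with
  | _ n ih =>
    match n, ih with
    | 0, _ => simp [W12]
    | 1, _ => simp [W12]; exact h1.le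
    | n + 2, ih =>
      rw [card_W12_succ]
      push_cast
      have e1 := ih (n + 1) (by omega)
      have e2 := ih n (by omega)
      have e3 : ((W12 (n + 1)).card + (W12 n).card : ℝ) * ps ^ (n + 2) =
          ps * (((W12 (n + 1)).card : ℝ) * ps ^ (n + 1)) +
          ps ^ 2 * (((W12 n).card : ℝ) * ps ^ n) := by ring
      rw [e3]
      have e4 := ps_sq
      nlinarith [pow_pos h0 2]

theorem card_W12_ge (n : ℕ) : ps ≤ ((W12 n).card : ℝ) * ps ^ n := by
  have h0 := ps_pos
  have h1 := ps_lt_one
  induction n using Nat.strong_induction_on with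
  | _ n ih =>
    match n, ih with
    | 0, _ => simp [W12]; exact h1.le
    | 1, _ => simp [W12]
    | n + 2, ih =>
      rw [card_W12_succ]
      push_cast
      have e1 := ih (n + 1) (by omega)
      have e2 := ih n (by omega)
      have e3 : ((W12 (n + 1)).card + (W12 n).card : ℝ) * ps ^ (n + 2) =
          ps * (((W12 (n + 1)).card : ℝ) * ps ^ (n + 1)) +
          ps ^ 2 * (((W12 n).card : ℝ) * ps ^ n) := by ring
      rw [e3]
      have e4 := ps_sq
      nlinarith [pow_pos h0 2]

/-- Signed count of words by the number of twos. -/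
def SE (n : ℕ) : ℤ := ∑ l ∈ W12 n, (-1 : ℤ) ^ (l.count 2)

theorem SE_succ (n : ℕ) : SE (n + 2) = SE (n + 1) - SE n := by
  unfold SE
  rw [sum_W12_succ, sub_eq_add_neg, ← Finset.sum_neg_distrib]
  have h1 : ∀ l : List ℕ, (-1 : ℤ) ^ ((1 :: l).count 2) = (-1 : ℤ) ^ (l.count 2) := by
    intro l
    rw [List.count_cons]
    simp
  have h2 : ∀ l : List ℕ, (-1 : ℤ) ^ ((2 :: l).count 2) = -(-1 : ℤ) ^ (l.count 2) := by
    intro l
    rw [List.count_cons]
    simp [pow_succ]
  simp only [h1, h2]

theorem SE_bound (n : ℕ) : |SE n| ≤ 1 ∧ |SE (n + 1)| ≤ 1 ∧ |SE (n + 1) - SE n| ≤ 1 := by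
  induction n with
  | zero =>
    have e0 : SE 0 = 1 := by simp [SE, W12]
    have e1 : SE (0 + 1) = 1 := by simp [SE, W12]
    rw [e0, e1]
    norm_num
  | succ n ih =>
    obtain ⟨h1, h2, h3⟩ := ih
    refine ⟨h2, ?_, ?_⟩
    · show |SE (n + 2)| ≤ 1
      rw [SE_succ]; exact h3
    · show |SE (n + 2) - SE (n + 1)| ≤ 1
      rw [SE_succ]
      have : SE (n + 1) - SE n - SE (n + 1) = -SE n := by ring
      rw [this, abs_neg]; exact h1

/-- Words over `{1,2}` with prescribed length. -/
def V : ℕ → Finset (List ℕ)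
  | 0 => {[]}
  | n + 1 => ((V n).image (List.cons 1)) ∪ ((V n).image (List.cons 2))

theorem sum_V_succ {M : Type*} [AddCommMonoid M] (n : ℕ) (f : List ℕ → M) :
    ∑ l ∈ V (n + 1), f l = ∑ l ∈ V n, f (1 :: l) + ∑ l ∈ V n, f (2 :: l) := by
  have hd : Disjoint ((V n).image (List.cons 1)) ((V n).image (List.cons 2)) := by
    rw [Finset.disjoint_left]
    intro l h1 h2
    obtain ⟨a, _, rfl⟩ := Finset.mem_image.mp h1
    obtain ⟨b, _, h⟩ := Finset.mem_image.mp h2
    have := (List.cons.inj h).1
    omega
  rw [V, Finset.sum_union hd, Finset.sum_image, Finset.sum_image]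
  · intro x _ y _ h; exact (List.cons.inj h).2
  · intro x _ y _ h; exact (List.cons.inj h).2

theorem mem_V (n : ℕ) (l : List ℕ) : l ∈ V n ↔ (∀ x ∈ l, x = 1 ∨ x = 2) ∧ l.length = n := by
  induction n generalizing l with
  | zero =>
    simp only [V, Finset.mem_singleton]
    constructor
    · rintro rfl; simp
    · rintro ⟨_, h2⟩; exact List.length_eq_zero_iff.mp h2
  | succ n ih =>
    rw [V, Finset.mem_union, Finset.mem_image, Finset.mem_image]
    constructor
    · rintro (⟨a, ha, rfl⟩ | ⟨a, ha, rfl⟩)
      · rw [ih] at ha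
        refine ⟨?_, by simp [ha.2]⟩
        intro x hx
        rw [List.mem_cons] at hx
        rcases hx with rfl | hx
        · left; rfl
        · exact ha.1 x hx
      · rw [ih] at ha
        refine ⟨?_, by simp [ha.2]⟩
        intro x hx
        rw [List.mem_cons] at hx
        rcases hx with rfl | hx
        · right; rfl
        · exact ha.1 x hx
    · rintro ⟨h1, h2⟩
      cases l with
      | nil => simp at h2
      | cons x l =>
        simp only [List.length_cons] at h2
        have hl : l ∈ V n := (ih l).mpr ⟨fun y hy => h1 y (by simp [hy]), by omega⟩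
        rcases h1 x (by simp) with rfl | rfl
        · left; exact ⟨l, hl, rfl⟩
        · right; exact ⟨l, hl, rfl⟩

theorem card_V (n : ℕ) : (V n).card = 2 ^ n := by
  induction n with
  | zero => simp [V]
  | succ n ih =>
    have := sum_V_succ (M := ℕ) n (fun _ => 1)
    simp only [Finset.sum_const, smul_eq_mul, mul_one] at this
    rw [this, ih]; ring

theorem sum_le_of_12 {l : List ℕ} (h : ∀ x ∈ l, x = 1 ∨ x = 2) :
    l.length ≤ l.sum ∧ l.sum ≤ 2 * l.length := by
  induction l with
  | nil => simp
  | cons x l ih =>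
    have h1 := ih (fun y hy => h y (by simp [hy]))
    have h2 := h x (by simp)
    simp only [List.length_cons, List.sum_cons]
    omega

/-- Splitting off the first letters. -/
theorem sum_W12_prefix (J : ℕ) (G : ℕ) (hG : 2 * J ≤ G) (f : List ℕ → ℤ) :
    ∑ c ∈ W12 G, f c = ∑ u ∈ V J, ∑ v ∈ W12 (G - u.sum), f (u ++ v) := by
  induction J generalizing G f with
  | zero => simp [V]
  | succ J ih =>
    obtain ⟨G', rfl⟩ : ∃ G', G = G' + 2 := ⟨G - 2, by omega⟩
    rw [sum_W12_succ, sum_V_succ, ih (G' + 1) (by omega), ih G' (by omega)]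
    congr 1
    · apply Finset.sum_congr rfl
      intro u _
      have : G' + 2 - (1 :: u).sum = G' + 1 - u.sum := by simp; omega
      rw [this]; rfl
    · apply Finset.sum_congr rfl
      intro u _
      have : G' + 2 - (2 :: u).sum = G' - u.sum := by simp; omega
      rw [this]; rfl

theorem sum_W12_reverse (G : ℕ) (f : List ℕ → ℤ) :
    ∑ c ∈ W12 G, f c = ∑ c ∈ W12 G, f c.reverse := by
  refine Finset.sum_bij' (fun c _ => c.reverse) (fun c _ => c.reverse) ?_ ?_ ?_ ?_ ?_
  · intro c hc
    rw [mem_W12] at hc ⊢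
    exact ⟨fun x hx => hc.1 x (List.mem_reverse.mp hx), by rw [List.sum_reverse]; exact hc.2⟩
  · intro c hc
    rw [mem_W12] at hc ⊢
    exact ⟨fun x hx => hc.1 x (List.mem_reverse.mp hx), by rw [List.sum_reverse]; exact hc.2⟩
  · intro c _; exact List.reverse_reverse c
  · intro c _; exact List.reverse_reverse c
  · intro c _; rw [List.reverse_reverse]

theorem sum_V_reverse (J : ℕ) (f : List ℕ → ℤ) :
    ∑ c ∈ V J, f c = ∑ c ∈ V J, f c.reverse := by
  refine Finset.sum_bij' (fun c _ => c.reverse) (fun c _ => c.reverse) ?_ ?_ ?_ ?_ ?_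
  · intro c hc
    rw [mem_V] at hc ⊢
    exact ⟨fun x hx => hc.1 x (List.mem_reverse.mp hx), by rw [List.length_reverse]; exact hc.2⟩
  · intro c hc
    rw [mem_V] at hc ⊢
    exact ⟨fun x hx => hc.1 x (List.mem_reverse.mp hx), by rw [List.length_reverse]; exact hc.2⟩
  · intro c _; exact List.reverse_reverse c
  · intro c _; exact List.reverse_reverse c
  · intro c _; rw [List.reverse_reverse]

/-- Splitting off the last letters. -/
theorem sum_W12_suffix (J : ℕ) (G : ℕ) (hG : 2 * J ≤ G) (f : List ℕ → ℤ) :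
    ∑ c ∈ W12 G, f c = ∑ y ∈ V J, ∑ v ∈ W12 (G - y.sum), f (v ++ y) := by
  rw [sum_W12_reverse, sum_W12_prefix J G hG, sum_V_reverse]
  apply Finset.sum_congr rfl
  intro y _
  rw [sum_W12_reverse, List.sum_reverse]
  apply Finset.sum_congr rfl
  intro v _
  rw [List.reverse_append, List.reverse_reverse, List.reverse_reverse]

theorem sum_W12_both (J : ℕ) (G : ℕ) (hG : 4 * J ≤ G) (f : List ℕ → ℤ) :
    ∑ c ∈ W12 G, f c =
      ∑ u ∈ V J, ∑ y ∈ V J, ∑ v ∈ W12 (G - u.sum - y.sum), f (u ++ (v ++ y)) := by
  rw [sum_W12_prefix J G (by omega)]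
  apply Finset.sum_congr rfl
  intro u hu
  rw [mem_V] at hu
  have := (sum_le_of_12 hu.1).2
  rw [sum_W12_suffix J (G - u.sum) (by omega)]

/-! Pairs of blocks -/

def P3 : Finset (ℕ × ℕ) := {(1, 1), (2, 1), (2, 2)}

def PL : ℕ → Finset (List (ℕ × ℕ))
  | 0 => {[]}
  | n + 1 => P3.biUnion (fun s => (PL n).image (fun l => s :: l))

noncomputable def th : ℝ := ps ^ 2 + ps ^ 3 + ps ^ 4

theorem th_pos : 0 < th := by have := ps_pos; unfold th; positivity

theorem th_lt : th < 8 / 10 := by
  have h0 := ps_pos
  have h1 := ps_lt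
  have h2 := ps_sq
  have h3 : ps ^ 3 = 2 * ps - 1 := by
    have : ps ^ 3 = ps * ps ^ 2 := by ring
    rw [this, h2]; nlinarith
  have h4 : ps ^ 4 = 2 - 3 * ps := by
    have : ps ^ 4 = ps * ps ^ 3 := by ring
    rw [this, h3]; nlinarith
  unfold th
  rw [h2, h3, h4]
  have := ps_gt
  linarith

theorem sum_PL (n : ℕ) : ∑ l ∈ PL n, W l = th ^ n := by
  induction n with
  | zero => simp [PL, W]
  | succ n ih =>
    simp only [PL]
    rw [sum_cons]
    have : ∀ s ∈ P3, wt s * ∑ l ∈ PL n, W l = wt s * th ^ n := by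
      intro s _; rw [ih]
    rw [Finset.sum_congr rfl this, ← Finset.sum_mul, pow_succ, mul_comm]
    congr 1
    simp [P3, wt, th]
    ring

theorem mem_PL (l : List (ℕ × ℕ)) (h : ∀ s ∈ l, s ∈ P3) : l ∈ PL l.length := by
  induction l with
  | nil => simp [PL]
  | cons s l ih =>
    simp only [List.length_cons, PL, Finset.mem_biUnion, Finset.mem_image]
    exact ⟨s, h s (by simp), l, ih (fun x hx => h x (by simp [hx])), rfl⟩

def psum (l : List (ℕ × ℕ)) : ℕ := (l.map (fun s => s.1 + s.2)).sum

theorem W_eq_psum (l : List (ℕ × ℕ)) : W l = ps ^ psum l := by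
  induction l with
  | nil => simp [W, psum]
  | cons s l ih =>
    rw [W_cons, ih]
    simp only [psum, List.map_cons, List.sum_cons, wt]
    rw [pow_add _ (s.1 + s.2)]

/-- Counting words containing a dominated pair of blocks. -/
theorem pair_blocks (G e : ℕ) (X : Finset (List ℕ)) (z : List ℕ → List (ℕ × ℕ))
    (w : List ℕ → List ℕ) (hz : ∀ c ∈ X, z c ∈ PL e) (hw : ∀ c ∈ X, ∀ x ∈ w c, x = 1 ∨ x = 2)
    (hs : ∀ c ∈ X, psum (z c) + (w c).sum = G)
    (hinj : Set.InjOn (fun c => (z c, w c)) (X : Set (List ℕ))) :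
    (X.card : ℝ) * ps ^ G ≤ th ^ e := by
  classical
  have h0 := ps_pos
  set A := (PL e).filter (fun z => psum z ≤ G) with hA
  have hcard : X.card ≤ ∑ z ∈ A, (W12 (G - psum z)).card := by
    rw [← Finset.card_sigma]
    apply Finset.card_le_card_of_injOn (fun c => (⟨z c, w c⟩ : (_ : List (ℕ × ℕ)) × List ℕ))
    · intro c hc
      have hc' : c ∈ X := hc
      have h1 := hs c hc'
      simp only [Finset.coe_sigma, Set.mem_sigma_iff, Finset.mem_coe]
      refine ⟨?_, ?_⟩
      · rw [hA, Finset.mem_filter]
        exact ⟨hz c hc', by omega⟩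
      · rw [mem_W12]
        exact ⟨hw c hc', by omega⟩
    · intro c hc c' hc' h
      apply hinj hc hc'
      simp only [Sigma.mk.injEq, heq_eq_eq] at h
      exact Prod.ext h.1 h.2
  calc (X.card : ℝ) * ps ^ G ≤ ((∑ z ∈ A, (W12 (G - psum z)).card : ℕ) : ℝ) * ps ^ G := by
        apply mul_le_mul_of_nonneg_right _ (by positivity)
        exact_mod_cast hcard
    _ = ∑ z ∈ A, W z * (((W12 (G - psum z)).card : ℝ) * ps ^ (G - psum z)) := by
        push_cast
        rw [Finset.sum_mul]
        apply Finset.sum_congr rfl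
        intro z hz'
        rw [hA, Finset.mem_filter] at hz'
        rw [W_eq_psum]
        have : ps ^ G = ps ^ psum z * ps ^ (G - psum z) := by
          rw [← pow_add]; congr 1; omega
        rw [this]; ring
    _ ≤ ∑ z ∈ A, W z * 1 := by
        apply Finset.sum_le_sum
        intro z _
        exact mul_le_mul_of_nonneg_left (card_W12_le _) (W_nonneg z)
    _ ≤ ∑ z ∈ PL e, W z := by
        simp only [mul_one]
        exact Finset.sum_le_sum_of_subset_of_nonneg (Finset.filter_subset _ _)
          (fun z _ _ => W_nonneg z)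
    _ = th ^ e := sum_PL e

end Pool.Agent.H32.NS
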